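import Pool.Agent.V11146.MK.Lst
import Pool.Agent.TH464.PO.GapLaw

set_option autoImplicit false

/-!
# From the marked moments to the law of the residue sequence
-/

namespace Pool.Agent.V11146.MK

open Finset Filter
open Pool.Agent.TH464.PO

lemma cnt_nil (ρ : ℕ → ℕ) (Ω : Finset ℕ) : cnt ρ Ω [] = 1 := by
  classical
  unfold cnt
  rw [List.length_nil, powersetCard_zero, filter_singleton, if_pos (res_empty ρ), card_singleton]

/-- the moments of the cardinality -/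
lemma card_moment (A : ℕ) (Om : Finset ℕ) (Ω : ℕ → Finset ℕ) (ρ : ℕ → ℕ → ℕ) (cl : Finset ℕ)
    (N x η : ℝ) (hcl : cl.card = A) (hA : 1 ≤ A) (hΩ : ∀ g ∈ Om, ∀ h ∈ Ω g, ρ g h ∈ cl) (j : ℕ)
    (h : ∀ t ∈ Ls cl j, |∑ g ∈ Om, (cnt (ρ g) (Ω g) t : ℝ) - N * (x ^ j / j.factorial / (A : ℝ) ^ j)| ≤ η * N) :
    |∑ g ∈ Om, ((Ω g).card.choose j : ℝ) - N * (x ^ j / j.factorial)| ≤ (A : ℝ) ^ j * (η * N) := by
  have hA0 : (0 : ℝ) < A := by exact_mod_cast hA
  have h1 : ∑ g ∈ Om, ((Ω g).card.choose j : ℝ) = ∑ t ∈ Ls cl j, ∑ g ∈ Om, (cnt (ρ g) (Ω g) t : ℝ) := by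
    rw [Finset.sum_comm]
    exact Finset.sum_congr rfl fun g hg => (sum_cnt_eq cl (ρ g) (Ω g) (hΩ g hg) j).symm
  have h2 : N * (x ^ j / j.factorial) = ∑ t ∈ Ls cl j, N * (x ^ j / j.factorial / (A : ℝ) ^ j) := by
    rw [Finset.sum_const, card_Ls, hcl, nsmul_eq_mul]
    push_cast
    field_simp
  rw [h1, h2, ← Finset.sum_sub_distrib]
  refine (Finset.abs_sum_le_sum_abs _ _).trans ?_
  refine (Finset.sum_le_card_nsmul _ _ _ h).trans (le_of_eq ?_)
  rw [card_Ls, hcl, nsmul_eq_mul]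
  push_cast
  ring

/-- **The residue sequence is asymptotically uniform.** -/
theorem diff_abs (A : ℕ) (hA : 1 ≤ A) (x0 ε : ℝ) (_hx0 : 0 ≤ x0) (hε : 0 < ε) :
    ∃ (J : ℕ) (η : ℝ), 0 < η ∧
    ∀ (Om : Finset ℕ) (Ω : ℕ → Finset ℕ) (ρ : ℕ → ℕ → ℕ) (cl : Finset ℕ) (N x : ℝ), 0 ≤ N →
      cl.card = A → (∀ g ∈ Om, ∀ h ∈ Ω g, ρ g h ∈ cl) → 0 ≤ x → x ≤ x0 →
      (∀ j ≤ J, ∀ t ∈ Ls cl j,
        |∑ g ∈ Om, (cnt (ρ g) (Ω g) t : ℝ) - N * (x ^ j / j.factorial / (A : ℝ) ^ j)| ≤ η * N) →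
      ∀ F : List ℕ → ℝ, (∀ t, |F t| ≤ 1) →
        |∑ g ∈ Om, (F (res (ρ g) (Ω g)) - av cl (Ω g).card F)| ≤ ε * N := by
  have hA0 : (0 : ℝ) < A := by exact_mod_cast hA
  have hten : Tendsto (fun n : ℕ => (3 * x0) ^ n / (n.factorial : ℝ)) atTop (nhds 0) :=
    FloorSemiring.tendsto_pow_div_factorial_atTop (3 * x0)
  have hev := (hten.eventually (gt_mem_nhds (show (0 : ℝ) < ε / 8 by positivity))).and
    (eventually_ge_atTop 1)
  obtain ⟨J', hJ1, hJ2⟩ := hev.exists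
  obtain ⟨J, rfl⟩ : ∃ J, J' = J + 1 := ⟨J' - 1, by omega⟩
  obtain ⟨B, hB⟩ : ∃ B : ℝ, B = ∑ j ∈ range (J + 1), (A : ℝ) ^ j * 2 ^ j * 2 := ⟨_, rfl⟩
  have hB0 : 0 ≤ B := by rw [hB]; exact Finset.sum_nonneg fun _ _ => by positivity
  obtain ⟨B2, hB2⟩ : ∃ B : ℝ, B = 4 * 3 ^ (J + 1) * (A : ℝ) ^ (J + 1) := ⟨_, rfl⟩
  have hB20 : 0 ≤ B2 := by rw [hB2]; positivity
  refine ⟨J + 1, ε / (2 * (B + B2 + 1)), by positivity, ?_⟩
  intro Om Ω ρ cl N x hN hcl hΩ hx hxx0 hmom F hF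
  obtain ⟨η, hη⟩ : ∃ η : ℝ, η = ε / (2 * (B + B2 + 1)) := ⟨_, rfl⟩
  rw [← hη] at hmom
  have hη0 : 0 < η := by rw [hη]; positivity
  have hηB : η * (B + B2) ≤ ε / 2 := by
    rw [hη, div_mul_eq_mul_div, div_le_div_iff₀ (by positivity) (by norm_num)]
    nlinarith
  have hcln : cl.Nonempty := by
    rw [← Finset.card_pos, hcl]
    omega
  have hc := fun (j : ℕ) (hj : j ≤ J + 1) => card_moment A Om Ω ρ cl N x η hcl hA hΩ j (hmom j hj)
  have h1 : |∑ g ∈ Om, (F (res (ρ g) (Ω g)) - av cl (Ω g).card F) -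
      ∑ g ∈ Om, ∑ j ∈ range (J + 1), ∑ t ∈ Ls cl j,
        mu t F * ((cnt (ρ g) (Ω g) t : ℝ) - ((Ω g).card.choose j : ℝ) / (cl.card : ℝ) ^ j)| ≤
      4 * (3 ^ (J + 1) * ∑ g ∈ Om, ((Ω g).card.choose (J + 1) : ℝ)) := by
    rw [← Finset.sum_sub_distrib, Finset.mul_sum, Finset.mul_sum]
    refine (Finset.abs_sum_le_sum_abs _ _).trans ?_
    apply Finset.sum_le_sum
    intro g hg
    exact point cl hcln (ρ g) (Ω g) (hΩ g hg) J F hF
  have h2 : |∑ g ∈ Om, ∑ j ∈ range (J + 1), ∑ t ∈ Ls cl j,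
        mu t F * ((cnt (ρ g) (Ω g) t : ℝ) - ((Ω g).card.choose j : ℝ) / (cl.card : ℝ) ^ j)| ≤ B * (η * N) := by
    rw [Finset.sum_comm]
    refine (Finset.abs_sum_le_sum_abs _ _).trans ?_
    rw [hB, Finset.sum_mul]
    apply Finset.sum_le_sum
    intro j hj
    rw [mem_range] at hj
    rw [Finset.sum_comm]
    refine (Finset.abs_sum_le_sum_abs _ _).trans ?_
    have h3 : ∀ t ∈ Ls cl j, |∑ g ∈ Om,
        mu t F * ((cnt (ρ g) (Ω g) t : ℝ) - ((Ω g).card.choose j : ℝ) / (cl.card : ℝ) ^ j)| ≤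
        2 ^ j * (2 * (η * N)) := by
      intro t ht
      rw [← Finset.mul_sum, abs_mul]
      have hmu := mu_bound t F hF
      rw [((mem_Ls cl j t).1 ht).1] at hmu
      apply mul_le_mul hmu _ (abs_nonneg _) (by positivity)
      rw [Finset.sum_sub_distrib, ← Finset.sum_div, hcl]
      have h4 := hmom j (by omega) t ht
      have h5 := hc j (by omega)
      have h6 : |(∑ g ∈ Om, ((Ω g).card.choose j : ℝ)) / (A : ℝ) ^ j - N * (x ^ j / j.factorial / (A : ℝ) ^ j)| ≤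
          η * N := by
        have e : (∑ g ∈ Om, ((Ω g).card.choose j : ℝ)) / (A : ℝ) ^ j - N * (x ^ j / j.factorial / (A : ℝ) ^ j) =
            (∑ g ∈ Om, ((Ω g).card.choose j : ℝ) - N * (x ^ j / j.factorial)) / (A : ℝ) ^ j := by
          field_simp
        rw [e, abs_div, abs_of_pos (pow_pos hA0 j), div_le_iff₀ (pow_pos hA0 j)]
        refine h5.trans (le_of_eq ?_)
        ring
      rw [abs_le] at h4 h6 ⊢
      constructor <;> linarith [h4.1, h4.2, h6.1, h6.2]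
    refine (Finset.sum_le_card_nsmul _ _ _ h3).trans (le_of_eq ?_)
    rw [card_Ls, hcl, nsmul_eq_mul]
    push_cast
    ring
  have h7 : ∑ g ∈ Om, ((Ω g).card.choose (J + 1) : ℝ) ≤
      N * (x ^ (J + 1) / (J + 1).factorial) + (A : ℝ) ^ (J + 1) * (η * N) := by
    have := (abs_le.1 (hc (J + 1) le_rfl)).2
    linarith
  have h8 : 3 ^ (J + 1) * (x ^ (J + 1) / ((J + 1).factorial : ℝ)) ≤ ε / 8 := by
    calc 3 ^ (J + 1) * (x ^ (J + 1) / ((J + 1).factorial : ℝ)) = (3 * x) ^ (J + 1) / (J + 1).factorial := by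
          rw [mul_pow]
          ring
      _ ≤ (3 * x0) ^ (J + 1) / (J + 1).factorial := by gcongr
      _ ≤ ε / 8 := hJ1.le
  have h9 : 4 * (3 ^ (J + 1) * ∑ g ∈ Om, ((Ω g).card.choose (J + 1) : ℝ)) ≤ ε / 2 * N + B2 * (η * N) := by
    calc 4 * (3 ^ (J + 1) * ∑ g ∈ Om, ((Ω g).card.choose (J + 1) : ℝ)) ≤
        4 * (3 ^ (J + 1) * (N * (x ^ (J + 1) / (J + 1).factorial) + (A : ℝ) ^ (J + 1) * (η * N))) := by
          gcongr
      _ = 4 * (3 ^ (J + 1) * (x ^ (J + 1) / (J + 1).factorial)) * N + B2 * (η * N) := by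
          rw [hB2]
          ring
      _ ≤ 4 * (ε / 8) * N + B2 * (η * N) := by gcongr
      _ = _ := by ring
  have h10 : (B + B2) * (η * N) ≤ ε / 2 * N := by
    calc (B + B2) * (η * N) = η * (B + B2) * N := by ring
      _ ≤ ε / 2 * N := by gcongr
  rw [abs_le] at h1 h2 ⊢
  constructor <;> nlinarith [h1.1, h1.2, h2.1, h2.2]

open Classical in
/-- **The law of the residue patterns.** -/
theorem pat_abs (A m : ℕ) (hA : 1 ≤ A) (ε : ℝ) (hε : 0 < ε) :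
    ∃ x1 : ℝ, 1 ≤ x1 ∧ ∃ (J : ℕ) (η : ℝ), 0 < η ∧
    ∀ (Om : Finset ℕ) (Ω : ℕ → Finset ℕ) (ρ : ℕ → ℕ → ℕ) (cl : Finset ℕ) (N x : ℝ), 0 ≤ N →
      cl.card = A → (∀ g ∈ Om, ∀ h ∈ Ω g, ρ g h ∈ cl) → x1 ≤ x → x ≤ x1 + 1 →
      (∀ j ≤ J, ∀ t ∈ Ls cl j,
        |∑ g ∈ Om, (cnt (ρ g) (Ω g) t : ℝ) - N * (x ^ j / j.factorial / (A : ℝ) ^ j)| ≤ η * N) →
      ∀ β ∈ Ls cl m,
        |((Om.filter (fun g => pre β (res (ρ g) (Ω g)) = true)).card : ℝ) - N / (A : ℝ) ^ m| ≤ ε * N ∧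
        ((Om.filter (fun g => (Ω g).card < m)).card : ℝ) ≤ ε * N := by
  have hA0 : (0 : ℝ) < A := by exact_mod_cast hA
  have hA1 : (1 : ℝ) ≤ A := by exact_mod_cast hA
  obtain ⟨e, he⟩ : ∃ e : ℝ, e = min (ε / 16) 1 := ⟨_, rfl⟩
  have he0 : 0 < e := by rw [he]; positivity
  have heε : e ≤ ε / 16 := by rw [he]; exact min_le_left _ _
  have he1 : e ≤ 1 := by rw [he]; exact min_le_right _ _
  obtain ⟨x1, hx1a, hx1b⟩ := (((Ck_tendsto m).eventually (gt_mem_nhds he0)).and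
    (eventually_ge_atTop 1)).exists
  obtain ⟨R, η1, hη1, htv⟩ := law_tv (x1 + 1) e (by linarith) he0
  obtain ⟨J, η2, hη2, hdiff⟩ := diff_abs A hA (x1 + 1) e (by linarith) he0
  obtain ⟨E, hE⟩ : ∃ E : ℝ, E = (A : ℝ) ^ R + Real.exp (x1 + 1) := ⟨_, rfl⟩
  have hE0 : 0 < E := by rw [hE]; positivity
  refine ⟨x1, hx1b, J + R, min (min η2 (η1 / (2 * E))) (min e (1 / 2)), by positivity, ?_⟩
  intro Om Ω ρ cl N x hN hcl hΩ hx hxx hmom β hβ
  obtain ⟨η, hη⟩ : ∃ η : ℝ, η = min (min η2 (η1 / (2 * E))) (min e (1 / 2)) := ⟨_, rfl⟩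
  rw [← hη] at hmom
  have hη0 : 0 < η := by rw [hη]; positivity
  have hηa : η ≤ η2 := by rw [hη]; exact (min_le_left _ _).trans (min_le_left _ _)
  have hηb : η ≤ η1 / (2 * E) := by rw [hη]; exact (min_le_left _ _).trans (min_le_right _ _)
  have hηc : η ≤ e := by rw [hη]; exact (min_le_right _ _).trans (min_le_left _ _)
  have hηd : η ≤ 1 / 2 := by rw [hη]; exact (min_le_right _ _).trans (min_le_right _ _)
  have hx0 : 0 ≤ x := by linarith
  have hηE : η * E ≤ η1 / 2 := by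
    rw [le_div_iff₀ (by positivity)] at hηb
    linarith
  have hcln : cl.Nonempty := by
    rw [← Finset.card_pos, hcl]
    omega
  -- the number of elements
  have hOm : |(Om.card : ℝ) - N| ≤ η * N := by
    have := hmom 0 (by omega) [] (by simp [Ls])
    simpa [cnt_nil] using this
  have hOm2 : N ≤ 2 * Om.card := by
    have := (abs_le.1 hOm).1
    nlinarith
  have hOm3 : (Om.card : ℝ) ≤ 2 * N := by
    have := (abs_le.1 hOm).2
    nlinarith
  have hOm0 : (0 : ℝ) ≤ Om.card := Nat.cast_nonneg _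
  -- small cardinalities
  have hlaw := htv Om (fun g => (Ω g).card) x hx0 hxx (by
    intro k hk
    have h1 := card_moment A Om Ω ρ cl N x η hcl hA hΩ k (hmom k (by omega))
    have h2 : x ^ k / (k.factorial : ℝ) ≤ Real.exp (x1 + 1) :=
      (Real.pow_div_factorial_le_exp x hx0 k).trans (Real.exp_le_exp.2 hxx)
    have h20 : 0 ≤ x ^ k / (k.factorial : ℝ) := by positivity
    have h3 : (A : ℝ) ^ k ≤ (A : ℝ) ^ R := pow_le_pow_right₀ hA1 hk
    have h4 : |N * (x ^ k / (k.factorial : ℝ)) - Om.card * (x ^ k / (k.factorial : ℝ))| ≤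
        Real.exp (x1 + 1) * (η * N) := by
      rw [← sub_mul, abs_mul, abs_of_nonneg h20, abs_sub_comm, mul_comm]
      exact mul_le_mul h2 hOm (abs_nonneg _) (Real.exp_pos _).le
    have h5 : (A : ℝ) ^ k * (η * N) ≤ (A : ℝ) ^ R * (η * N) := by gcongr
    have h6 := abs_sub_le (∑ g ∈ Om, ((Ω g).card.choose k : ℝ)) (N * (x ^ k / (k.factorial : ℝ)))
      (Om.card * (x ^ k / (k.factorial : ℝ)))
    have h7 : E * (η * N) ≤ η1 * Om.card := by
      calc E * (η * N) = (η * E) * N := by ring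
        _ ≤ η1 / 2 * (2 * Om.card) := by gcongr
        _ = η1 * Om.card := by ring
    rw [hE] at h7
    linarith) (range m)
  have hsmall : ((Om.filter (fun g => (Ω g).card < m)).card : ℝ) ≤ 2 * e * Om.card := by
    have e1 : Om.filter (fun g => (Ω g).card < m) = Om.filter (fun g => (Ω g).card ∈ range m) := by
      apply Finset.filter_congr
      intro g _
      rw [mem_range]
    rw [e1]
    have h1 := (abs_le.1 hlaw).2
    have h2 : ∑ j ∈ range m, Real.exp (-x) * x ^ j / (j.factorial : ℝ) ≤ e := by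
      have h3 : Ck m x ≤ Ck m x1 := Ck_anti m x1 x (by linarith) hx
      have h4 : Ck m x = ∑ j ∈ range m, Real.exp (-x) * x ^ j / (j.factorial : ℝ) := rfl
      rw [← h4]
      exact h3.trans hx1a.le
    have h5 : (Om.card : ℝ) * ∑ j ∈ range m, Real.exp (-x) * x ^ j / (j.factorial : ℝ) ≤ Om.card * e := by
      gcongr
    linarith
  have hlen := (mem_Ls cl m β).1 hβ
  have hd := hdiff Om Ω ρ cl N x hN hcl hΩ hx0 hxx (fun j hj t ht =>
    (hmom j (by omega) t ht).trans (by gcongr)) (Fp β) (Fp_bound β)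
  have hsum1 : ∑ g ∈ Om, Fp β (res (ρ g) (Ω g)) =
      ((Om.filter (fun g => pre β (res (ρ g) (Ω g)) = true)).card : ℝ) := by
    unfold Fp
    rw [Finset.sum_ite, Finset.sum_const_zero, add_zero, Finset.sum_const, nsmul_eq_mul, mul_one]
  have hsum2 : |∑ g ∈ Om, av cl (Ω g).card (Fp β) - Om.card / (A : ℝ) ^ m| ≤ 2 * (2 * e * Om.card) := by
    have e1 : (Om.card : ℝ) / (A : ℝ) ^ m = ∑ g ∈ Om, 1 / (A : ℝ) ^ m := by
      rw [Finset.sum_const, nsmul_eq_mul]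
      ring
    rw [e1, ← Finset.sum_sub_distrib]
    refine (Finset.abs_sum_le_sum_abs _ _).trans ?_
    have h1 : ∀ g ∈ Om, |av cl (Ω g).card (Fp β) - 1 / (A : ℝ) ^ m| ≤ if (Ω g).card < m then 2 else 0 := by
      intro g _
      split_ifs with h
      · have h2 := av_bound cl hcln (Ω g).card (Fp β) (Fp_bound β)
        have h3 : |1 / (A : ℝ) ^ m| ≤ 1 := by
          rw [abs_of_nonneg (by positivity), div_le_one (by positivity)]
          exact one_le_pow₀ hA1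
        rw [abs_le] at h2 h3 ⊢
        constructor <;> linarith [h2.1, h2.2, h3.1, h3.2]
      · rw [not_lt] at h
        rw [av_Fp cl hcln β hlen.2 (Ω g).card (by rw [hlen.1]; exact h), hcl, hlen.1, sub_self, abs_zero]
    refine (Finset.sum_le_sum h1).trans ?_
    rw [Finset.sum_ite, Finset.sum_const_zero, add_zero, Finset.sum_const, nsmul_eq_mul, mul_comm]
    gcongr
  have hOm4 : |(Om.card : ℝ) / (A : ℝ) ^ m - N / (A : ℝ) ^ m| ≤ η * N := by
    rw [← sub_div, abs_div, abs_of_pos (pow_pos hA0 m), div_le_iff₀ (pow_pos hA0 m)]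
    refine hOm.trans ?_
    have h1 : (1 : ℝ) ≤ (A : ℝ) ^ m := one_le_pow₀ hA1
    have h2 : 0 ≤ η * N := by positivity
    nlinarith
  rw [Finset.sum_sub_distrib, hsum1] at hd
  have h11 : 4 * e * (Om.card : ℝ) ≤ 8 * e * N := by nlinarith
  have h12 : η * N ≤ e * N := by gcongr
  have h13 : 16 * (e * N) ≤ ε * N := by
    have := mul_le_mul_of_nonneg_right heε hN
    linarith
  have h14 : 0 ≤ e * N := by positivity
  refine ⟨?_, ?_⟩
  · rw [abs_le] at hd hsum2 hOm4 ⊢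
    constructor <;> nlinarith [hd.1, hd.2, hsum2.1, hsum2.2, hOm4.1, hOm4.2]
  · linarith

end Pool.Agent.V11146.MK
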