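import Pool.Agent.V11146.MK.Sing
import Pool.Agent.V11146.MK.Abs

set_option autoImplicit false

/-!
# The residue patterns of consecutive sifted integers
-/

namespace Pool.Agent.V11146.MK

open Finset Filter
open Pool.Agent.W123.RP Pool.Agent.H373R2.T7 Pool.Agent.W123.RU Pool.Agent.TH464.PO
open Pool.Agent.Y879.PR

open Classical in
/-- the good integers of a class -/
noncomputable def Oa (Q : ℕ → ℕ → Prop) (l a y Z Y : ℕ) : Finset ℕ :=
  (Ioc Z (Z + Y)).filter (fun g => Sf Q y g ∧ g % l = a)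

open Classical in
/-- the good shifts -/
noncomputable def Og (Q : ℕ → ℕ → Prop) (y T g : ℕ) : Finset ℕ := (Icc 1 T).filter (fun h => Sf Q y (g + h))

lemma mod_mem_cls (Q : ℕ → ℕ → Prop) (c : ℕ) (hQ : PerB Q c) (l y n : ℕ) (hl : l.Prime) (hly : l ≤ y)
    (hn : Sf Q y n) : n % l ∈ cls Q l := by
  rw [mem_cls]
  refine ⟨Nat.mod_lt _ hl.pos, ?_⟩
  rw [← hQ.per]
  exact hn l (mem_pz.2 ⟨hly, hl⟩)

open Classical in
/-- the marked moments as sums over sets of shifts -/
lemma mark_moment (Q : ℕ → ℕ → Prop) (l a y T Z Y : ℕ) (hl : l.Prime) (hly : l ≤ y) (t : List ℕ) :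
    ∑ g ∈ Oa Q l a y Z Y, (cnt (fun h => (g + h) % l) (Og Q y T g) t : ℝ) =
      ∑ H ∈ (powersetCard t.length (Icc 1 T)).filter (fun H => res (fun h => (a + h) % l) H = t),
        (((Ioc Z (Z + Y)).filter (fun g => Sf (QB Q l a H) y g)).card : ℝ) := by
  have h1 : ∀ H ∈ (powersetCard t.length (Icc 1 T)).filter (fun H => res (fun h => (a + h) % l) H = t),
      (((Ioc Z (Z + Y)).filter (fun g => Sf (QB Q l a H) y g)).card : ℝ) =
      ∑ g ∈ Oa Q l a y Z Y, if (∀ h ∈ H, Sf Q y (g + h)) then (1 : ℝ) else 0 := by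
    intro H _
    rw [Finset.sum_ite, Finset.sum_const_zero, add_zero, Finset.sum_const, nsmul_eq_mul, mul_one]
    unfold Oa
    rw [Finset.filter_filter]
    congr 2
    apply Finset.filter_congr
    intro m _
    rw [sf_QB Q l a y m H hl hly]
    tauto
  rw [Finset.sum_congr rfl h1, Finset.sum_comm]
  apply Finset.sum_congr rfl
  intro g hg
  unfold Oa at hg
  rw [mem_filter] at hg
  rw [Finset.sum_ite, Finset.sum_const_zero, add_zero, Finset.sum_const, nsmul_eq_mul, mul_one]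
  have hres : (fun h => (a + h) % l) = (fun h => (g + h) % l) := by
    funext h
    rw [← hg.2.2, Nat.mod_add_mod]
  rw [hres, Finset.filter_filter]
  unfold cnt Og
  congr 2
  ext H
  rw [mem_filter, mem_filter, mem_powersetCard, mem_powersetCard]
  constructor
  · rintro ⟨⟨h2, h3⟩, h4⟩
    exact ⟨⟨fun h hh => (mem_filter.1 (h2 hh)).1, h3⟩, h4, fun h hh => (mem_filter.1 (h2 hh)).2⟩
  · rintro ⟨⟨h2, h3⟩, h4, h5⟩
    exact ⟨⟨fun h hh => mem_filter.2 ⟨h2 hh, h5 h hh⟩, h3⟩, h4⟩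

open Classical in
lemma count_shift (Q : ℕ → ℕ → Prop) (y Z Y : ℕ) :
    ((Ioc Z (Z + Y)).filter (Sf Q y)).card =
        ((Icc 1 Y).filter (fun n : ℕ => ∀ p ∈ pz y, ¬ Qt Q Z p n)).card := by
  symm
  apply Finset.card_bij (fun n _ => n + Z)
  · intro n hn
    rw [mem_filter, mem_Icc] at hn
    rw [mem_filter, mem_Ioc]
    exact ⟨by omega, hn.2⟩
  · intro a _ b _ hab
    omega
  · intro n hn
    rw [mem_filter, mem_Ioc] at hn
    refine ⟨n - Z, ?_, by omega⟩
    rw [mem_filter, mem_Icc]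
    refine ⟨by omega, ?_⟩
    intro p hp
    have := hn.2 p hp
    unfold Qt
    rwa [show n - Z + Z = n by omega]

open Classical in
/-- **The marked moments.** -/
theorem mark_count (c j l : ℕ) (hl : l.Prime) (η : ℝ) (hη : 0 < η) (hη1 : η ≤ 1) :
    ∃ (K0 y0 T0 : ℕ) (η' : ℝ), 0 < η' ∧ l ≤ y0 ∧ ∀ Z Y y T : ℕ, y0 ≤ y → y ^ K0 ≤ Y → T0 ≤ T →
      ∀ Q : ℕ → ℕ → Prop, PerB Q c → (∀ p : ℕ, p.Prime → nuB Q p < p) →
      (∀ T' : ℕ, T ≤ 2 * T' → T' ≤ 2 * T →
        ∀ t ∈ Icc 1 T', ((((pz y).filter (fun p : ℕ => T' < p ∧ CoG Q p t)).card : ℕ) : ℝ) ≤ η' * T') →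
      ∀ a ∈ cls Q l, ∀ t ∈ Ls (cls Q l) j,
      |∑ g ∈ Oa Q l a y Z Y, (cnt (fun h => (g + h) % l) (Og Q y T g) t : ℝ) -
        Y * (Vq Q y * ((T * Vq Q y) ^ j / j.factorial) / (cls Q l).card ^ (j + 1))| ≤
        η * (Y * (Vq Q y * ((T * Vq Q y) ^ j / j.factorial))) + T ^ j * √(Y : ℝ) := by
  obtain ⟨K0, x0, hK0, hfund⟩ := sys_fund ((j + 1) * c + l) (by have := hl.pos; omega) (η / 4) (by positivity)
  obtain ⟨w, η', T0, hη', hlw, hsing⟩ := mark_avg c j l hl (η / 4) (by positivity) (by linarith)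
  refine ⟨K0, max x0 w, T0, η', hη', hlw.trans (le_max_right _ _), ?_⟩
  intro Z Y y T hy hyY hT Q hQ hadm hlarge a ha t ht
  have hwy : w ≤ y := (le_max_right _ _).trans hy
  have hly : l ≤ y := hlw.trans hwy
  have hs := hsing T hT Q hQ hadm y hwy hlarge a ha t ht
  have htl := ((mem_Ls _ _ _).1 ht).1
  rw [mark_moment Q l a y T Z Y hl hly t]
  obtain ⟨S, hS⟩ : ∃ S, S = SL Q l a y T t := ⟨_, rfl⟩
  obtain ⟨m, hm⟩ : ∃ m : ℝ, m = Vq Q y * ((T * Vq Q y) ^ j / j.factorial) := ⟨_, rfl⟩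
  rw [← hS, ← hm] at hs
  rw [← hm]
  have hV0 := Vq_nonneg Q y
  have hm0 : 0 ≤ m := by rw [hm]; positivity
  have hY0 : (0 : ℝ) ≤ Y := Nat.cast_nonneg Y
  have hAcard : 0 < (cls Q l).card := Finset.card_pos.2 ⟨a, ha⟩
  have hA1 : (1 : ℝ) ≤ (cls Q l).card := by exact_mod_cast hAcard
  obtain ⟨B, hB⟩ : ∃ B : ℝ, B = ((cls Q l).card : ℝ) ^ (j + 1) := ⟨_, rfl⟩
  rw [← hB] at hs ⊢
  have hB1 : 1 ≤ B := by rw [hB]; exact one_le_pow₀ hA1
  have hS0 : 0 ≤ S := by rw [hS]; exact SL_nonneg _ _ _ _ _ _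
  have hS2 : S ≤ 2 * m := by
    have h1 := (abs_le.1 hs).2
    have h2 : m / B ≤ m := div_le_self hm0 hB1
    nlinarith
  obtain ⟨F, hF⟩ : ∃ F, F = (powersetCard t.length (Icc 1 T)).filter (fun H => res (fun h => (a + h) % l) H = t) :=
    ⟨_, rfl⟩
  rw [← hF]
  have hSF : S = ∑ H ∈ F, Vq (QB Q l a H) y := by rw [hS, hF]; rfl
  have hFcard : (F.card : ℝ) ≤ (T : ℝ) ^ j := by
    have h3 : F.card ≤ T ^ j := by
      rw [hF]
      refine (card_filter_le _ _).trans ?_
      rw [card_powersetCard, Nat.card_Icc, Nat.add_sub_cancel, htl]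
      exact Nat.choose_le_pow T j
    exact_mod_cast h3
  have h1 : |∑ H ∈ F, (((Ioc Z (Z + Y)).filter (fun g => Sf (QB Q l a H) y g)).card : ℝ) - Y * S| ≤
      η / 4 * (Y * S) + T ^ j * √(Y : ℝ) := by
    have e : Y * S = ∑ H ∈ F, (Y : ℝ) * Vq (QB Q l a H) y := by
      rw [hSF, Finset.mul_sum]
    rw [e, ← Finset.sum_sub_distrib]
    refine (Finset.abs_sum_le_sum_abs _ _).trans ?_
    have h2 : ∀ H ∈ F, |(((Ioc Z (Z + Y)).filter (fun g => Sf (QB Q l a H) y g)).card : ℝ) -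
        Y * Vq (QB Q l a H) y| ≤ η / 4 * (Y * Vq (QB Q l a H) y) + √(Y : ℝ) := by
      intro H hH
      rw [hF, mem_filter, mem_powersetCard, htl] at hH
      have hper := perB_QB Q c hQ l a H
      rw [hH.1.2] at hper
      have h3 := hfund Y y ((le_max_left _ _).trans hy) hyY (Qt (QB Q l a H) Z) (perB_Qt _ _ hper Z) Y
      have e1 : ∏ p ∈ pz y, (1 - (nuB (Qt (QB Q l a H) Z) p : ℝ) / p) = Vq (QB Q l a H) y :=
        Vq_Qt _ _ hper Z y
      rw [e1, ← count_shift] at h3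
      exact h3
    refine (Finset.sum_le_sum h2).trans ?_
    rw [Finset.sum_add_distrib, ← Finset.mul_sum, Finset.sum_const, nsmul_eq_mul]
    have h4 := mul_le_mul_of_nonneg_right hFcard (Real.sqrt_nonneg (Y : ℝ))
    linarith
  have h5 : |Y * S - Y * (m / B)| ≤ η / 4 * (Y * m) := by
    rw [← mul_sub, abs_mul, abs_of_nonneg hY0]
    calc (Y : ℝ) * |S - m / B| ≤ Y * (η / 4 * m) := mul_le_mul_of_nonneg_left hs hY0
      _ = _ := by ring
  have h6 : η / 4 * (Y * S) ≤ η / 4 * (Y * (2 * m)) := by gcongr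
  have h7 : 0 ≤ η * (Y * m) := by positivity
  have h9 := abs_sub_le (∑ H ∈ F, (((Ioc Z (Z + Y)).filter (fun g => Sf (QB Q l a H) y g)).card : ℝ))
    (Y * S) (Y * (m / B))
  linarith

/-- after `g`, the next good integers lie in the classes of the list -/
def Pat (G : ℕ → Prop) (l : ℕ) : List ℕ → ℕ → Prop
  | [], _ => True
  | b :: β, g => ∃ g', g < g' ∧ G g' ∧ (∀ n, g < n → n < g' → ¬ G n) ∧ g' % l = b ∧ Pat G l β g'

open Classical in
/-- the good integers in the window, and the first of them -/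
lemma pat_of_pre (G : ℕ → Prop) (l : ℕ) (β : List ℕ) (g s T : ℕ) (hs : s ≤ T)
    (h : pre β (res (fun h => (g + h) % l) ((Ioc s T).filter (fun h => G (g + h)))) = true) :
    Pat G l β (g + s) := by
  induction β generalizing s with
  | nil => trivial
  | cons b β ih =>
    obtain ⟨W, hW⟩ : ∃ W, W = (Ioc s T).filter (fun h => G (g + h)) := ⟨_, rfl⟩
    rw [← hW] at h
    rcases W.eq_empty_or_nonempty with h0 | h0
    · rw [h0, res_empty] at h
      simp [pre] at h
    · obtain ⟨u, hu, humin⟩ : ∃ u ∈ W, ∀ x ∈ W, u ≤ x := ⟨W.min' h0, W.min'_mem h0, fun x hx => W.min'_le x hx⟩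
      have hu' := hu
      rw [hW, mem_filter, mem_Ioc] at hu'
      have hWu : W = insert u ((Ioc u T).filter (fun h => G (g + h))) := by
        ext x
        rw [mem_insert, mem_filter, mem_Ioc]
        constructor
        · intro hx
          have h1 := humin x hx
          rw [hW, mem_filter, mem_Ioc] at hx
          rcases Nat.eq_or_lt_of_le h1 with h2 | h2
          · exact Or.inl h2.symm
          · exact Or.inr ⟨⟨h2, hx.1.2⟩, hx.2⟩
        · rintro (rfl | hx)
          · exact hu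
          · rw [hW, mem_filter, mem_Ioc]
            exact ⟨⟨by omega, hx.1.2⟩, hx.2⟩
      rw [hWu, res_insert _ u _ (fun x hx => (mem_Ioc.1 (mem_filter.1 hx).1).1)] at h
      simp only [pre, Bool.and_eq_true, beq_iff_eq] at h
      refine ⟨g + u, by omega, hu'.2, ?_, h.1.symm, ih u hu'.1.2 h.2⟩
      intro n hn1 hn2 hGn
      have h3 : n - g ∈ W := by
        rw [hW, mem_filter, mem_Ioc, show g + (n - g) = n by omega]
        exact ⟨by omega, hGn⟩
      have := humin _ h3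
      omega

open Classical in
lemma pre_of_pat (G : ℕ → Prop) (l : ℕ) (β : List ℕ) (g s T : ℕ)
    (hcard : β.length ≤ ((Ioc s T).filter (fun h => G (g + h))).card)
    (h : Pat G l β (g + s)) :
    pre β (res (fun h => (g + h) % l) ((Ioc s T).filter (fun h => G (g + h)))) = true := by
  induction β generalizing s with
  | nil => simp [pre]
  | cons b β ih =>
    obtain ⟨g', h1, h2, h3, h4, h5⟩ := h
    obtain ⟨W, hW⟩ : ∃ W, W = (Ioc s T).filter (fun h => G (g + h)) := ⟨_, rfl⟩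
    rw [← hW] at hcard ⊢
    obtain ⟨u, hu⟩ : ∃ u, g' = g + u := ⟨g' - g, by omega⟩
    subst hu
    have hne : W.Nonempty := by
      rw [← Finset.card_pos]
      simp only [List.length_cons] at hcard
      omega
    obtain ⟨x, hx⟩ := hne
    have hx' := hx
    rw [hW, mem_filter, mem_Ioc] at hx'
    have hux : u ≤ x := by
      by_contra hcon
      exact h3 (g + x) (by omega) (by omega) hx'.2
    have hWu : W = insert u ((Ioc u T).filter (fun h => G (g + h))) := by
      ext z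
      rw [mem_insert, mem_filter, mem_Ioc]
      constructor
      · intro hz
        rw [hW, mem_filter, mem_Ioc] at hz
        rcases Nat.lt_trichotomy z u with h6 | h6 | h6
        · exact absurd hz.2 (h3 (g + z) (by omega) (by omega))
        · exact Or.inl h6
        · exact Or.inr ⟨⟨h6, hz.1.2⟩, hz.2⟩
      · rintro (rfl | hz)
        · rw [hW, mem_filter, mem_Ioc]
          exact ⟨⟨by omega, by omega⟩, h2⟩
        · rw [hW, mem_filter, mem_Ioc]
          exact ⟨⟨by omega, hz.1.2⟩, hz.2⟩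
    have hnot : u ∉ (Ioc u T).filter (fun h => G (g + h)) := by
      rw [mem_filter, mem_Ioc]
      omega
    rw [hWu, res_insert _ u _ (fun x hx => (mem_Ioc.1 (mem_filter.1 hx).1).1)]
    simp only [pre, Bool.and_eq_true, beq_iff_eq]
    refine ⟨h4.symm, ih u ?_ h5⟩
    rw [hWu, card_insert_of_notMem hnot] at hcard
    simp only [List.length_cons] at hcard
    omega

end Pool.Agent.V11146.MK
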