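import Mathlib

set_option autoImplicit false

/-!
# Functions of the residue sequence of a random set: expansion in sub-sequences
-/

namespace Pool.Agent.V11146.MK

open Finset

/-- the sum of `G` over the sub-lists -/
def sub : List ℕ → (List ℕ → ℝ) → ℝ
  | [], G => G []
  | b :: L, G => sub L G + sub L (fun t => G (b :: t))

/-- the Möbius inverse -/
def mu : List ℕ → (List ℕ → ℝ) → ℝ
  | [], F => F []
  | b :: L, F => mu L (fun t => F (b :: t)) - mu L F

lemma sub_sub (L : List ℕ) (G G' : List ℕ → ℝ) :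
    sub L (fun t => G t - G' t) = sub L G - sub L G' := by
  induction L generalizing G G' with
  | nil => rfl
  | cons b L ih =>
    simp only [sub]
    rw [ih, ih]
    ring

lemma sub_mu (L : List ℕ) (F : List ℕ → ℝ) : sub L (fun t => mu t F) = F L := by
  induction L generalizing F with
  | nil => rfl
  | cons b L ih =>
    simp only [sub, mu]
    rw [sub_sub, ih, ih]
    ring

lemma mu_bound (L : List ℕ) (F : List ℕ → ℝ) (hF : ∀ t, |F t| ≤ 1) : |mu L F| ≤ 2 ^ L.length := by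
  induction L generalizing F with
  | nil => simpa [mu] using hF []
  | cons b L ih =>
    simp only [mu, List.length_cons, pow_succ]
    have h1 := ih (fun t => F (b :: t)) (fun t => hF _)
    have h2 := ih F hF
    have h3 := abs_sub (mu L (fun t => F (b :: t))) (mu L F)
    linarith

/-- the residue sequence of a finite set -/
def res (ρ : ℕ → ℕ) (Ω : Finset ℕ) : List ℕ := (Ω.sort (· ≤ ·)).map ρ

lemma res_empty (ρ : ℕ → ℕ) : res ρ ∅ = [] := by simp [res]

lemma res_length (ρ : ℕ → ℕ) (Ω : Finset ℕ) : (res ρ Ω).length = Ω.card := by simp [res]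

lemma res_insert (ρ : ℕ → ℕ) (a : ℕ) (Ω : Finset ℕ) (h : ∀ x ∈ Ω, a < x) :
    res ρ (insert a Ω) = ρ a :: res ρ Ω := by
  unfold res
  rw [Finset.sort_insert (· ≤ ·) (fun b hb => (h b hb).le) (fun h1 => lt_irrefl _ (h a h1)),
    List.map_cons]

lemma mem_res (ρ : ℕ → ℕ) (Ω : Finset ℕ) (b : ℕ) : b ∈ res ρ Ω ↔ ∃ h ∈ Ω, ρ h = b := by
  simp [res]

lemma sum_powerset_res (ρ : ℕ → ℕ) (Ω : Finset ℕ) (G : List ℕ → ℝ) :
    ∑ H ∈ Ω.powerset, G (res ρ H) = sub (res ρ Ω) G := by
  induction Ω using Finset.induction_on_min generalizing G with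
  | empty => simp [res_empty, sub]
  | insert a s hs ih =>
    have ha : a ∉ s := fun h1 => lt_irrefl _ (hs a h1)
    rw [Finset.sum_powerset_insert ha, res_insert ρ a s hs]
    simp only [sub]
    rw [ih G, ← ih (fun t => G (ρ a :: t))]
    congr 1
    apply Finset.sum_congr rfl
    intro t ht
    rw [mem_powerset] at ht
    rw [res_insert ρ a t (fun x hx => hs x (ht hx))]

/-- lists of length `j` with entries in `cl` -/
def Ls (cl : Finset ℕ) : ℕ → Finset (List ℕ)
  | 0 => {[]}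
  | j + 1 => (cl ×ˢ Ls cl j).image (fun p => p.1 :: p.2)

lemma mem_Ls (cl : Finset ℕ) (j : ℕ) (t : List ℕ) : t ∈ Ls cl j ↔ t.length = j ∧ ∀ b ∈ t, b ∈ cl := by
  induction j generalizing t with
  | zero =>
    simp only [Ls, mem_singleton]
    constructor
    · rintro rfl
      simp
    · rintro ⟨h, _⟩
      exact List.length_eq_zero_iff.1 h
  | succ j ih =>
    simp only [Ls, mem_image, mem_product, Prod.exists]
    constructor
    · rintro ⟨b, s, ⟨hb, hs⟩, rfl⟩
      have := (ih s).1 hs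
      simp only [List.length_cons, List.mem_cons, forall_eq_or_imp]
      exact ⟨by omega, hb, this.2⟩
    · rintro ⟨h1, h2⟩
      cases t with
      | nil => simp at h1
      | cons b s =>
        simp only [List.length_cons, List.mem_cons, forall_eq_or_imp] at h1 h2
        exact ⟨b, s, ⟨h2.1, (ih s).2 ⟨by omega, h2.2⟩⟩, rfl⟩

lemma sum_Ls_succ (cl : Finset ℕ) (j : ℕ) (G : List ℕ → ℝ) :
    ∑ t ∈ Ls cl (j + 1), G t = ∑ b ∈ cl, ∑ t ∈ Ls cl j, G (b :: t) := by
  simp only [Ls]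
  rw [Finset.sum_image, Finset.sum_product]
  rintro ⟨b, s⟩ _ ⟨b', s'⟩ _ h
  simp only [List.cons.injEq] at h
  exact Prod.ext h.1 h.2

lemma card_Ls (cl : Finset ℕ) (j : ℕ) : (Ls cl j).card = cl.card ^ j := by
  induction j with
  | zero => simp [Ls]
  | succ j ih =>
    have h := sum_Ls_succ cl j (fun _ => 1)
    simp only [Finset.sum_const, nsmul_eq_mul, mul_one, ih] at h
    have h2 : ((Ls cl (j + 1)).card : ℝ) = ((cl.card ^ (j + 1) : ℕ) : ℝ) := by
      rw [h]
      push_cast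
      ring
    exact_mod_cast h2

/-- the average over the lists of length `n` -/
noncomputable def av (cl : Finset ℕ) (n : ℕ) (G : List ℕ → ℝ) : ℝ := (∑ t ∈ Ls cl n, G t) / (cl.card : ℝ) ^ n

lemma av_succ (cl : Finset ℕ) (n : ℕ) (G : List ℕ → ℝ) :
    av cl (n + 1) G = (∑ b ∈ cl, av cl n (fun t => G (b :: t))) / cl.card := by
  unfold av
  rw [sum_Ls_succ, ← Finset.sum_div, pow_succ, div_div]

lemma av_add (cl : Finset ℕ) (n : ℕ) (G G' : List ℕ → ℝ) :
    av cl n (fun t => G t + G' t) = av cl n G + av cl n G' := by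
  unfold av
  rw [Finset.sum_add_distrib, add_div]

lemma choose_sum (n J : ℕ) (hJ : n + 1 ≤ J) (f : ℕ → ℝ) :
    ∑ j ∈ range (J + 1), ((n + 1).choose j : ℝ) * f j =
      ∑ j ∈ range (J + 1), (n.choose j : ℝ) * f j + ∑ j ∈ range (J + 1), (n.choose j : ℝ) * f (j + 1) := by
  rw [Finset.sum_range_succ' (fun j => ((n + 1).choose j : ℝ) * f j),
    Finset.sum_range_succ' (fun j => (n.choose j : ℝ) * f j),
    Finset.sum_range_succ (fun j => (n.choose j : ℝ) * f (j + 1)), Nat.choose_eq_zero_of_lt (show n < J by omega)]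
  have h : ∀ j ∈ range J, ((n + 1).choose (j + 1) : ℝ) * f (j + 1) =
      (n.choose (j + 1) : ℝ) * f (j + 1) + (n.choose j : ℝ) * f (j + 1) := by
    intro j _
    rw [Nat.choose_succ_succ]
    push_cast
    ring
  rw [Finset.sum_congr rfl h, Finset.sum_add_distrib]
  simp
  ring

lemma av_sub_list (cl : Finset ℕ) (hcl : cl.Nonempty) (n J : ℕ) (hJ : n ≤ J) (G : List ℕ → ℝ) :
    av cl n (fun L => sub L G) = ∑ j ∈ range (J + 1), (n.choose j : ℝ) * av cl j G := by
  induction n generalizing G with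
  | zero =>
    rw [Finset.sum_range_succ']
    have h : ∀ j ∈ range J, (Nat.choose 0 (j + 1) : ℝ) * av cl (j + 1) G = 0 := by
      intro j _
      simp
    rw [Finset.sum_congr rfl h]
    simp [av, Ls, sub]
  | succ n ih =>
    have hc : (cl.card : ℝ) ≠ 0 := by
      have := hcl.card_pos
      positivity
    rw [av_succ, choose_sum n J hJ]
    have h1 : ∀ b ∈ cl, av cl n (fun t => sub (b :: t) G) =
        ∑ j ∈ range (J + 1), (n.choose j : ℝ) * av cl j G +
          ∑ j ∈ range (J + 1), (n.choose j : ℝ) * av cl j (fun t => G (b :: t)) := by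
      intro b _
      rw [← ih (by omega) G, ← ih (by omega) (fun t => G (b :: t)), ← av_add]
      rfl
    rw [Finset.sum_congr rfl h1, Finset.sum_add_distrib, add_div, Finset.sum_const, nsmul_eq_mul,
      mul_div_cancel_left₀ _ hc]
    congr 1
    rw [Finset.sum_comm, Finset.sum_div]
    apply Finset.sum_congr rfl
    intro j _
    rw [av_succ, ← Finset.mul_sum, mul_div_assoc]

/-- the expansion of the average -/
lemma av_expand (cl : Finset ℕ) (hcl : cl.Nonempty) (n J : ℕ) (hJ : n ≤ J) (F : List ℕ → ℝ) :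
    av cl n F = ∑ j ∈ range (J + 1), (n.choose j : ℝ) * av cl j (fun t => mu t F) := by
  rw [← av_sub_list cl hcl n J hJ]
  congr 1
  funext L
  rw [sub_mu]

open Classical in
/-- the number of subsets with residue sequence `t` -/
noncomputable def cnt (ρ : ℕ → ℕ) (Ω : Finset ℕ) (t : List ℕ) : ℕ :=
  ((powersetCard t.length Ω).filter (fun H => res ρ H = t)).card

lemma sum_cnt (cl : Finset ℕ) (ρ : ℕ → ℕ) (Ω : Finset ℕ) (hΩ : ∀ h ∈ Ω, ρ h ∈ cl) (j : ℕ)
    (G : List ℕ → ℝ) :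
    ∑ H ∈ powersetCard j Ω, G (res ρ H) = ∑ t ∈ Ls cl j, G t * cnt ρ Ω t := by
  classical
  have h1 : ∀ t ∈ Ls cl j, G t * (cnt ρ Ω t : ℝ) =
      ∑ H ∈ (powersetCard j Ω).filter (fun H => res ρ H = t), G (res ρ H) := by
    intro t ht
    rw [mem_Ls] at ht
    have h2 : ∀ H ∈ (powersetCard j Ω).filter (fun H => res ρ H = t), G (res ρ H) = G t := by
      intro H hH
      rw [(mem_filter.1 hH).2]
    rw [Finset.sum_congr rfl h2, Finset.sum_const, nsmul_eq_mul, mul_comm]
    unfold cnt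
    rw [ht.1]
  rw [Finset.sum_congr rfl h1]
  rw [Finset.sum_fiberwise_of_maps_to]
  intro H hH
  rw [mem_powersetCard] at hH
  rw [mem_Ls, res_length]
  refine ⟨hH.2, ?_⟩
  intro b hb
  obtain ⟨h, hh, rfl⟩ := (mem_res ρ H b).1 hb
  exact hΩ h (hH.1 hh)

/-- the exact expansion for small sets -/
lemma expand (cl : Finset ℕ) (ρ : ℕ → ℕ) (Ω : Finset ℕ) (hΩ : ∀ h ∈ Ω, ρ h ∈ cl) (J : ℕ)
    (hJ : Ω.card ≤ J) (F : List ℕ → ℝ) :
    F (res ρ Ω) = ∑ j ∈ range (J + 1), ∑ t ∈ Ls cl j, mu t F * cnt ρ Ω t := by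
  rw [← sub_mu (res ρ Ω) F, ← sum_powerset_res, Finset.sum_powerset]
  have h1 : ∀ j ∈ range (J + 1), ∑ t ∈ Ls cl j, mu t F * (cnt ρ Ω t : ℝ) =
      ∑ H ∈ powersetCard j Ω, mu (res ρ H) F := fun j _ => (sum_cnt cl ρ Ω hΩ j (fun t => mu t F)).symm
  rw [Finset.sum_congr rfl h1]
  apply Finset.sum_subset
  · intro j hj
    rw [mem_range] at hj ⊢
    omega
  · intro j _ hj
    rw [mem_range, not_lt] at hj
    rw [Finset.powersetCard_eq_empty.2 (by omega), Finset.sum_empty]

lemma sum_cnt_eq (cl : Finset ℕ) (ρ : ℕ → ℕ) (Ω : Finset ℕ) (hΩ : ∀ h ∈ Ω, ρ h ∈ cl) (j : ℕ) :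
    ∑ t ∈ Ls cl j, (cnt ρ Ω t : ℝ) = (Ω.card.choose j : ℝ) := by
  have h := sum_cnt cl ρ Ω hΩ j (fun _ => 1)
  simp only [Finset.sum_const, nsmul_eq_mul, mul_one, card_powersetCard, one_mul] at h
  exact h.symm

/-- truncated sums are small compared with the next binomial coefficient -/
lemma trunc_bound (n J : ℕ) (hn : J < n) :
    ∑ j ∈ range (J + 1), (n.choose j : ℝ) * 2 ^ j ≤ 3 ^ (J + 1) * (n.choose (J + 1) : ℝ) := by
  have h1 : ∀ j ∈ range (J + 1), (n.choose j : ℝ) * 2 ^ j ≤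
      ((J + 1).choose j : ℝ) * 2 ^ j * (n.choose (J + 1) : ℝ) := by
    intro j hj
    rw [mem_range] at hj
    have h2 := Nat.choose_mul (n := n) (k := J + 1) (s := j) (by omega)
    have h3 : 1 ≤ (n - j).choose (J + 1 - j) := Nat.choose_pos (by omega)
    have h4 : n.choose j ≤ (J + 1).choose j * n.choose (J + 1) := by
      calc n.choose j = n.choose j * 1 := (mul_one _).symm
        _ ≤ n.choose j * (n - j).choose (J + 1 - j) := Nat.mul_le_mul_left _ h3
        _ = n.choose (J + 1) * (J + 1).choose j := h2.symm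
        _ = _ := mul_comm _ _
    have h5 : (n.choose j : ℝ) ≤ ((J + 1).choose j : ℝ) * (n.choose (J + 1) : ℝ) := by
      exact_mod_cast h4
    calc (n.choose j : ℝ) * 2 ^ j ≤ ((J + 1).choose j : ℝ) * (n.choose (J + 1) : ℝ) * 2 ^ j := by gcongr
      _ = _ := by ring
  refine (Finset.sum_le_sum h1).trans ?_
  rw [← Finset.sum_mul]
  apply mul_le_mul_of_nonneg_right _ (Nat.cast_nonneg _)
  have h6 : ((3 : ℝ)) ^ (J + 1) = ∑ j ∈ range (J + 1 + 1), (2 : ℝ) ^ j * 1 ^ (J + 1 - j) * ((J + 1).choose j : ℝ) := by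
    rw [← add_pow]
    norm_num
  rw [h6, Finset.sum_range_succ (fun j => (2 : ℝ) ^ j * 1 ^ (J + 1 - j) * ((J + 1).choose j : ℝ))]
  have h7 : ∀ j ∈ range (J + 1), ((J + 1).choose j : ℝ) * 2 ^ j =
      (2 : ℝ) ^ j * 1 ^ (J + 1 - j) * ((J + 1).choose j : ℝ) := by
    intro j _
    rw [one_pow]
    ring
  rw [Finset.sum_congr rfl h7]
  have : (0 : ℝ) ≤ 2 ^ (J + 1) * 1 ^ (J + 1 - (J + 1)) * ((J + 1).choose (J + 1) : ℝ) := by positivity
  linarith

lemma av_mu_bound (cl : Finset ℕ) (hcl : cl.Nonempty) (j : ℕ) (F : List ℕ → ℝ) (hF : ∀ t, |F t| ≤ 1) :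
    |av cl j (fun t => mu t F)| ≤ 2 ^ j := by
  have hc : (0 : ℝ) < cl.card := by exact_mod_cast hcl.card_pos
  unfold av
  rw [abs_div, abs_of_pos (pow_pos hc j), div_le_iff₀ (pow_pos hc j)]
  refine (Finset.abs_sum_le_sum_abs _ _).trans ?_
  have h1 : ∀ t ∈ Ls cl j, |mu t F| ≤ 2 ^ j := by
    intro t ht
    have := mu_bound t F hF
    rwa [((mem_Ls cl j t).1 ht).1] at this
  refine (Finset.sum_le_card_nsmul _ _ _ h1).trans (le_of_eq ?_)
  rw [card_Ls, nsmul_eq_mul]
  push_cast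
  ring

lemma av_bound (cl : Finset ℕ) (hcl : cl.Nonempty) (j : ℕ) (F : List ℕ → ℝ) (hF : ∀ t, |F t| ≤ 1) :
    |av cl j F| ≤ 1 := by
  have hc : (0 : ℝ) < cl.card := by exact_mod_cast hcl.card_pos
  unfold av
  rw [abs_div, abs_of_pos (pow_pos hc j), div_le_iff₀ (pow_pos hc j)]
  refine (Finset.abs_sum_le_sum_abs _ _).trans ?_
  refine (Finset.sum_le_card_nsmul _ _ _ (fun t _ => hF t)).trans (le_of_eq ?_)
  rw [card_Ls, nsmul_eq_mul]
  push_cast
  ring

/-- the pointwise comparison -/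
lemma point (cl : Finset ℕ) (hcl : cl.Nonempty) (ρ : ℕ → ℕ) (Ω : Finset ℕ) (hΩ : ∀ h ∈ Ω, ρ h ∈ cl)
    (J : ℕ) (F : List ℕ → ℝ) (hF : ∀ t, |F t| ≤ 1) :
    |(F (res ρ Ω) - av cl Ω.card F) -
      ∑ j ∈ range (J + 1), ∑ t ∈ Ls cl j, mu t F * ((cnt ρ Ω t : ℝ) - (Ω.card.choose j : ℝ) / (cl.card : ℝ) ^ j)| ≤
      4 * (3 ^ (J + 1) * (Ω.card.choose (J + 1) : ℝ)) := by
  obtain ⟨n, hn⟩ : ∃ n, n = Ω.card := ⟨_, rfl⟩
  have hsplit : ∑ j ∈ range (J + 1), ∑ t ∈ Ls cl j,
      mu t F * ((cnt ρ Ω t : ℝ) - (Ω.card.choose j : ℝ) / (cl.card : ℝ) ^ j) =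
      ∑ j ∈ range (J + 1), ∑ t ∈ Ls cl j, mu t F * (cnt ρ Ω t : ℝ) -
        ∑ j ∈ range (J + 1), (Ω.card.choose j : ℝ) * av cl j (fun t => mu t F) := by
    rw [← Finset.sum_sub_distrib]
    apply Finset.sum_congr rfl
    intro j _
    unfold av
    rw [mul_div_assoc', mul_comm ((Ω.card.choose j : ℕ) : ℝ), mul_div_assoc, Finset.sum_mul,
      ← Finset.sum_sub_distrib]
    apply Finset.sum_congr rfl
    intro t _
    ring
  rw [hsplit, ← hn]
  rcases Nat.lt_or_ge J n with h | h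
  · have h1 : |∑ j ∈ range (J + 1), ∑ t ∈ Ls cl j, mu t F * (cnt ρ Ω t : ℝ)| ≤
        ∑ j ∈ range (J + 1), (n.choose j : ℝ) * 2 ^ j := by
      refine (Finset.abs_sum_le_sum_abs _ _).trans ?_
      apply Finset.sum_le_sum
      intro j _
      refine (Finset.abs_sum_le_sum_abs _ _).trans ?_
      rw [hn, ← sum_cnt_eq cl ρ Ω hΩ j, Finset.sum_mul]
      apply Finset.sum_le_sum
      intro t ht
      rw [abs_mul, Nat.abs_cast, mul_comm]
      apply mul_le_mul_of_nonneg_left _ (Nat.cast_nonneg _)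
      have := mu_bound t F hF
      rwa [((mem_Ls cl j t).1 ht).1] at this
    have h2 : |∑ j ∈ range (J + 1), (n.choose j : ℝ) * av cl j (fun t => mu t F)| ≤
        ∑ j ∈ range (J + 1), (n.choose j : ℝ) * 2 ^ j := by
      refine (Finset.abs_sum_le_sum_abs _ _).trans ?_
      apply Finset.sum_le_sum
      intro j _
      rw [abs_mul, Nat.abs_cast]
      exact mul_le_mul_of_nonneg_left (av_mu_bound cl hcl j F hF) (Nat.cast_nonneg _)
    have h3 := trunc_bound n J h
    have h4 := hF (res ρ Ω)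
    have h5 := av_bound cl hcl n F hF
    have h6 : (1 : ℝ) ≤ ∑ j ∈ range (J + 1), (n.choose j : ℝ) * 2 ^ j := by
      have : (n.choose 0 : ℝ) * 2 ^ 0 ≤ ∑ j ∈ range (J + 1), (n.choose j : ℝ) * 2 ^ j :=
        Finset.single_le_sum (f := fun j => (n.choose j : ℝ) * 2 ^ j) (fun j _ => by positivity)
          (mem_range.2 (by omega))
      simpa using this
    rw [abs_le] at h1 h2 h4 h5 ⊢
    constructor <;> linarith [h1.1, h1.2, h2.1, h2.2, h4.1, h4.2, h5.1, h5.2]
  · have hΩJ : Ω.card ≤ J := by omega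
    rw [← expand cl ρ Ω hΩ J hΩJ F, ← av_expand cl hcl n J h F, sub_self, abs_zero]
    positivity

/-- prefix test -/
def pre : List ℕ → List ℕ → Bool
  | [], _ => true
  | _ :: _, [] => false
  | b :: β, c :: t => (b == c) && pre β t

/-- prefix indicator -/
noncomputable def Fp (β t : List ℕ) : ℝ := if pre β t = true then 1 else 0

lemma Fp_bound (β t : List ℕ) : |Fp β t| ≤ 1 := by
  unfold Fp
  split_ifs <;> simp

lemma av_Fp (cl : Finset ℕ) (hcl : cl.Nonempty) (β : List ℕ) (hβ : ∀ b ∈ β, b ∈ cl) (n : ℕ)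
    (hn : β.length ≤ n) : av cl n (Fp β) = 1 / (cl.card : ℝ) ^ β.length := by
  have hc : (cl.card : ℝ) ≠ 0 := by
    have := hcl.card_pos
    positivity
  induction β generalizing n with
  | nil =>
    unfold av Fp
    simp only [pre, if_true, Finset.sum_const, nsmul_eq_mul, mul_one, List.length_nil, pow_zero,
      card_Ls, div_one]
    push_cast
    rw [div_self (pow_ne_zero _ hc)]
  | cons b β ih =>
    obtain ⟨n, rfl⟩ : ∃ k, n = k + 1 := ⟨n - 1, by simp only [List.length_cons] at hn; omega⟩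
    rw [av_succ]
    have h1 : ∀ c ∈ cl, av cl n (fun t => Fp (b :: β) (c :: t)) = if b = c then av cl n (Fp β) else 0 := by
      intro c _
      by_cases h : b = c
      · rw [if_pos h]
        congr 1
        funext t
        unfold Fp
        simp [pre, h]
      · rw [if_neg h]
        unfold av Fp
        simp [pre, h]
    rw [Finset.sum_congr rfl h1, Finset.sum_ite_eq, if_pos (hβ b (by simp)),
      ih (fun c hc => hβ c (by simp [hc])) n (by simp only [List.length_cons] at hn; omega)]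
    simp only [List.length_cons, pow_succ]
    field_simp

lemma pre_length (β t : List ℕ) (h : pre β t = true) : β.length ≤ t.length := by
  induction β generalizing t with
  | nil => simp
  | cons b β ih =>
    cases t with
    | nil => simp [pre] at h
    | cons c t =>
      simp only [pre, Bool.and_eq_true] at h
      simpa using ih t h.2

end Pool.Agent.V11146.MK
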