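import Pool.Agent.V11146.MK.Main
import Pool.Agent.TH464.PO.PolyExact
import Pool.Agent.TH464.PO.Ext

set_option autoImplicit false

/-!
# The residue patterns of consecutive almost prime values of systems of polynomials
-/

namespace Pool.Agent.V11146.MK

open Polynomial Finset Filter
open Pool.Agent.W123.RP Pool.Agent.H373R2.T7 Pool.Agent.W123.RU Pool.Agent.W123.RU.Poly
open Pool.Agent.TH464.PW Pool.Agent.TH464.PO

variable {ι : Type} [Fintype ι]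

open Classical in
/-- **Residue patterns of consecutive almost prime values.** -/
theorem poly_pat [Nonempty ι] (f : ι → ℤ[X]) (hf : Sys f) (hT : NoTr f) (l m : ℕ) (hl : l.Prime)
    (θ ε : ℝ) (hθ : 0 < θ) (hε : 0 < ε) :
    ∃ r0 : ℕ, ∀ r : ℕ, r0 ≤ r → ∀ᶠ X : ℕ in atTop, ∀ Z Y : ℕ, (X : ℝ) ^ θ ≤ Y →
      ∀ a ∈ cls (Q f) l, ∀ β ∈ Ls (cls (Q f) l) m,
        |(((Oa (Q f) l a ⌊(X : ℝ) ^ (1 / (r : ℝ))⌋₊ Z Y).filter
            (fun g => Pat (Sf (Q f) ⌊(X : ℝ) ^ (1 / (r : ℝ))⌋₊) l β g)).card : ℝ) -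
          Y * Vq (Q f) ⌊(X : ℝ) ^ (1 / (r : ℝ))⌋₊ / ((cls (Q f) l).card : ℝ) ^ (m + 1)| ≤
          ε * (Y * Vq (Q f) ⌊(X : ℝ) ^ (1 / (r : ℝ))⌋₊) := by
  obtain ⟨c, hc, hQ⟩ := exists_c f hf
  have hA : 1 ≤ (cls (Q f) l).card := by
    have h1 := card_cls (Q f) l
    have h2 := Poly.adm f hf l hl
    omega
  obtain ⟨K0, y0, T0, R0, η', x1, hη', hx1, hgen⟩ := gen_pat c l (cls (Q f) l).card m hl hA ε hε
  obtain ⟨r0, h0⟩ := poly_sizes f hf hT θ hθ K0 y0 T0 R0 η' (x1 / 2) (2 * x1 + 2) hη' (by linarith)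
    (by linarith)
  refine ⟨r0, ?_⟩
  intro r hr
  filter_upwards [h0 r hr] with X hX
  intro Z Y hXY a ha β hβ
  obtain ⟨y, hy⟩ : ∃ y, y = ⌊(X : ℝ) ^ (1 / (r : ℝ))⌋₊ := ⟨_, rfl⟩
  obtain ⟨a1, a2, a3⟩ := hX Y hXY y hy
  rw [← hy]
  exact hgen (Q f) Z Y y hQ (fun p hp => Poly.adm f hf p hp) rfl a1 a2 a3 a ha β hβ

open Classical in
/-- the sizes, in terms of the level -/
lemma sizes_y [Nonempty ι] (f : ι → ℤ[X]) (hf : Sys f) (hT : NoTr f) (T0 R0 : ℕ) (η x1 x2 : ℝ) (hη : 0 < η)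
    (hx1 : 0 < x1) (hx2 : 0 ≤ x2) : ∃ y0 : ℕ, ∀ y : ℕ, y0 ≤ y → ∀ T : ℕ, x1 ≤ T * Vq (Q f) y →
      T * Vq (Q f) y ≤ x2 → T0 ≤ T ∧ T ^ R0 ≤ y ∧
        ∀ t ∈ Icc 1 T, ((((pz y).filter (fun p : ℕ => T < p ∧ CoG (Q f) p t)).card : ℕ) : ℝ) ≤ η * T := by
  obtain ⟨k, hk⟩ : ∃ k, k = Fintype.card ι := ⟨_, rfl⟩
  have hk1 : 1 ≤ k := by rw [hk]; exact Fintype.card_pos
  obtain ⟨v, Cv, hv, hCv, hV⟩ := V_bounds f hf
  rw [← hk] at hV
  obtain ⟨T1, hT1⟩ := large_small f hf hT η hη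
  have hlogX : Tendsto (fun X : ℕ => Real.log (X : ℝ)) atTop atTop :=
    Real.tendsto_log_atTop.comp tendsto_natCast_atTop_atTop
  have hpos : 0 < (x2 / v) ^ R0 + 1 := by
    have : 0 ≤ (x2 / v) ^ R0 := pow_nonneg (div_nonneg hx2 hv.le) _
    linarith
  obtain ⟨y0, hy0⟩ := Filter.eventually_atTop.1 ((hlogX.eventually_ge_atTop (1 + Cv * ((T0 : ℝ) + T1 + 1) / x1)).and
    ((logpow_rpow (k * R0) ((x2 / v) ^ R0 + 1) 1 hpos one_pos).and (eventually_ge_atTop 3)))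
  refine ⟨y0, ?_⟩
  intro y hy T hTlo hTup
  obtain ⟨h1, h2, h3⟩ := hy0 y hy
  obtain ⟨hVlo, hVup⟩ := hV y h3
  have hT0r : (0 : ℝ) ≤ T0 := Nat.cast_nonneg _
  have hT1r : (0 : ℝ) ≤ T1 := Nat.cast_nonneg _
  have hTr0 : (0 : ℝ) ≤ T := Nat.cast_nonneg _
  have hq : 0 ≤ Cv * ((T0 : ℝ) + T1 + 1) / x1 := by positivity
  have hlogy1 : 1 ≤ Real.log y := by linarith
  have hlogyk : Real.log y ≤ Real.log y ^ k := by
    calc Real.log y = Real.log y ^ 1 := (pow_one _).symm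
      _ ≤ Real.log y ^ k := pow_le_pow_right₀ hlogy1 hk1
  have hlogyk0 : 0 < Real.log y ^ k := by positivity
  have hTbig : (T0 : ℝ) + T1 + 1 ≤ T := by
    have h4 : x1 ≤ T * (Cv / Real.log y ^ k) := hTlo.trans (mul_le_mul_of_nonneg_left hVup hTr0)
    have h5 : x1 * Real.log y ^ k ≤ T * Cv := by
      have := mul_le_mul_of_nonneg_right h4 hlogyk0.le
      calc x1 * Real.log y ^ k ≤ T * (Cv / Real.log y ^ k) * Real.log y ^ k := this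
        _ = T * Cv := by field_simp
    have h6 : x1 * (Cv * ((T0 : ℝ) + T1 + 1) / x1) ≤ x1 * Real.log y ^ k := by
      apply mul_le_mul_of_nonneg_left _ hx1.le
      linarith
    have h7 : x1 * (Cv * ((T0 : ℝ) + T1 + 1) / x1) = Cv * ((T0 : ℝ) + T1 + 1) := by field_simp
    rw [h7] at h6
    have h8 : Cv * ((T0 : ℝ) + T1 + 1) ≤ Cv * T := by linarith
    exact le_of_mul_le_mul_left h8 hCv
  have hTT0 : T0 ≤ T := by
    have : (T0 : ℝ) ≤ T := by linarith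
    exact_mod_cast this
  have hTT1 : T1 ≤ T := by
    have : (T1 : ℝ) ≤ T := by linarith
    exact_mod_cast this
  refine ⟨hTT0, ?_, hT1 T hTT1 y⟩
  have h4 : (T : ℝ) * (v / Real.log y ^ k) ≤ x2 := (mul_le_mul_of_nonneg_left hVlo hTr0).trans hTup
  have h5 : (T : ℝ) ≤ x2 / v * Real.log y ^ k := by
    have h6 : (T : ℝ) * v ≤ x2 * Real.log y ^ k := by
      calc (T : ℝ) * v = T * (v / Real.log y ^ k) * Real.log y ^ k := by field_simp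
        _ ≤ x2 * Real.log y ^ k := mul_le_mul_of_nonneg_right h4 hlogyk0.le
    rw [div_mul_eq_mul_div, le_div_iff₀ hv]
    exact h6
  have h7 : ((T ^ R0 : ℕ) : ℝ) ≤ y := by
    push_cast
    calc (T : ℝ) ^ R0 ≤ (x2 / v * Real.log y ^ k) ^ R0 := pow_le_pow_left₀ hTr0 h5 _
      _ = (x2 / v) ^ R0 * Real.log y ^ (k * R0) := by rw [mul_pow, pow_mul]
      _ ≤ ((x2 / v) ^ R0 + 1) * Real.log y ^ (k * R0) := by
        gcongr
        linarith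
      _ ≤ (y : ℝ) ^ (1 : ℝ) := h2
      _ = y := Real.rpow_one _
  exact_mod_cast h7

open Classical in
/-- **Residue patterns of consecutive almost prime values**, uniform version. -/
theorem poly_pat_y [Nonempty ι] (f : ι → ℤ[X]) (hf : Sys f) (hT : NoTr f) (l m : ℕ) (hl : l.Prime)
    (ε : ℝ) (hε : 0 < ε) :
    ∃ K y0 : ℕ, ∀ y : ℕ, y0 ≤ y → ∀ Z Y : ℕ, y ^ K ≤ Y →
      ∀ a ∈ cls (Q f) l, ∀ β ∈ Ls (cls (Q f) l) m,
        |(((Oa (Q f) l a y Z Y).filter (fun g => Pat (Sf (Q f) y) l β g)).card : ℝ) -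
          Y * Vq (Q f) y / ((cls (Q f) l).card : ℝ) ^ (m + 1)| ≤ ε * (Y * Vq (Q f) y) := by
  obtain ⟨c, hc, hQ⟩ := exists_c f hf
  have hA : 1 ≤ (cls (Q f) l).card := by
    have h1 := card_cls (Q f) l
    have h2 := Poly.adm f hf l hl
    omega
  obtain ⟨K0, y0, T0, R0, η', x1, hη', hx1, hgen⟩ := gen_pat c l (cls (Q f) l).card m hl hA ε hε
  obtain ⟨y1, h1⟩ := sizes_y f hf hT T0 R0 η' (x1 / 2) (2 * x1 + 2) hη' (by linarith) (by linarith)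
  refine ⟨K0 + 1, y0 + y1 + 1, ?_⟩
  intro y hy Z Y hyY a ha β hβ
  have hy1 : 1 ≤ y := by omega
  have hyY1 : y ≤ Y := by
    calc y = y ^ 1 := (pow_one y).symm
      _ ≤ y ^ (K0 + 1) := Nat.pow_le_pow_right hy1 (by omega)
      _ ≤ Y := hyY
  refine hgen (Q f) Z Y y hQ (fun p hp => Poly.adm f hf p hp) rfl (by omega)
    ((Nat.pow_le_pow_right hy1 (by omega)).trans hyY) ?_ a ha β hβ
  intro T h2 h3
  obtain ⟨h4, h5, h6⟩ := h1 y (by omega) T h2 h3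
  exact ⟨h4, h5.trans hyY1, h6⟩

end Pool.Agent.V11146.MK
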