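import Pool.Agent.V11146.MK.Transfer

/-!
# Residue patterns of consecutive rough numbers
-/

set_option autoImplicit false

open Finset

namespace Pool.Agent.V11146.MK

/-- `n` has no prime factor `≤ z`. -/
def Rough (z n : ℕ) : Prop := ∀ p : ℕ, p.Prime → p ≤ z → ¬ p ∣ n

open Pool.Agent.V11146.MK Pool.Agent.Y879.GL Pool.Agent.W123.RU.Poly Pool.Agent.TH464.PO in
lemma rough_pattern : Pool.Agent.Y879.GL.Pat 1 1 0 ![0] where
  hM := by norm_num
  hc := by norm_num
  hk := by norm_num
  hkP := by norm_num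
  hpr := by
    intro p hp
    have := hp.two_le
    constructor
    · intro h
      have := Nat.le_of_dvd (by norm_num) h
      omega
    · intro h
      omega
  cop := by
    intro i
    simp
  inj := by
    intro i j _
    exact Subsingleton.elim i j
  dif := by
    intro i j hij
    exact absurd (Subsingleton.elim i j) hij

lemma rough_iff (y n : ℕ) : Rough y n ↔ Pool.Agent.Y879.GL.Rg 1 0 ![0] y n := by
  unfold Rough Pool.Agent.Y879.GL.Rg
  constructor
  · intro h
    refine ⟨Nat.mod_one n, ?_⟩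
    intro p hp hpy i
    have := h p hp hpy
    fin_cases i
    simpa using this
  · rintro ⟨_, h⟩ p hp hpy
    simpa using h p hp hpy 0

open Classical in
/-- all residue patterns modulo the prime `q` of `k + 1` consecutive rough numbers are equally frequent -/
theorem rough_pat (q k : ℕ) (hq : q.Prime) (ε : ℝ) (hε : 0 < ε) :
    ∃ K z₀ : ℕ, ∀ z : ℕ, z₀ ≤ z → ∀ Z Y : ℕ, z ^ K ≤ Y →
      0 < ((Ioc Z (Z + Y)).filter (Rough z)).card ∧
      ∀ a : ℕ → ℕ, (∀ i ≤ k, a i ∈ Ico 1 q) →
        |(((Ioc Z (Z + Y)).filter (fun g => Runs (Rough z) (fun n => n % q) k a g)).card : ℝ) -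
          ((Ioc Z (Z + Y)).filter (Rough z)).card / ((q : ℝ) - 1) ^ (k + 1)| ≤
          ε * ((Ioc Z (Z + Y)).filter (Rough z)).card := by
  have H := rough_pattern
  have hcard : (cls (Pool.Agent.W123.RU.Poly.Q (Pool.Agent.Y879.GL.sy 1 0 ![0])) q).card = q - 1 := by
    have h1 := card_cls (Pool.Agent.W123.RU.Poly.Q (Pool.Agent.Y879.GL.sy 1 0 ![0])) q
    have h2 := Pool.Agent.Y879.GL.nu_large H q hq hq.one_lt
    omega
  obtain ⟨K, y0, h⟩ := rel_pat (Pool.Agent.Y879.GL.sy 1 0 ![0])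
    (Pool.Agent.Y879.GL.sy_sys H) (Pool.Agent.Y879.GL.sy_noTr H (by intro i; fin_cases i; simp)) q k
    hq 1 0 (by norm_num) Rough 0
    (fun y _ n => (rough_iff y n).trans (Pool.Agent.Y879.GL.Rg_iff H y n)) (fun n => n % q)
    id (Ico 1 q)
    (by
      intro b _ m
      simp)
    (by
      intro b hb
      rw [mem_cls, Pool.Agent.Y879.GL.Q_iff]
      rw [mem_Ico] at hb
      refine ⟨hb.2, ?_⟩
      rintro ⟨i, hi⟩
      fin_cases i
      simp only [id_eq, one_mul, add_zero, Fin.zero_eta, Fin.isValue, Matrix.cons_val_zero] at hi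
      have := Nat.le_of_dvd (by omega) hi
      omega) ε hε
  refine ⟨K, y0, ?_⟩
  intro z hz Z Y hY
  obtain ⟨h1, h2⟩ := h z hz Z Y hY (Or.inl (Nat.zero_le Z))
  refine ⟨h1, ?_⟩
  intro a ha
  have h3 := h2 a ha
  rw [hcard, Nat.cast_sub hq.one_lt.le, Nat.cast_one] at h3
  exact h3

end Pool.Agent.V11146.MK
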