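import Pool.Agent.V11146.MK.Lst
import Pool.Agent.Y879.PR.Palm

set_option autoImplicit false

/-!
# The average of the singular series over the sets of shifts with given residue sequence
-/

namespace Pool.Agent.V11146.MK

open Finset Filter
open Pool.Agent.W123.RP Pool.Agent.H373R2.T7 Pool.Agent.W123.RU Pool.Agent.TH464.PO
open Pool.Agent.Y879.PR

open Classical in
/-- the classes modulo `l` which are not sifted -/
noncomputable def cls (Q : ℕ → ℕ → Prop) (l : ℕ) : Finset ℕ := (range l).filter (fun b => ¬ Q l b)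

open Classical in
lemma mem_cls (Q : ℕ → ℕ → Prop) (l b : ℕ) : b ∈ cls Q l ↔ b < l ∧ ¬ Q l b := by
  unfold cls
  rw [mem_filter, mem_range]

open Classical in
lemma card_cls (Q : ℕ → ℕ → Prop) (l : ℕ) : (cls Q l).card + nuB Q l = l := by
  unfold cls nuB
  have := Finset.card_filter_add_card_filter_not (s := range l) (fun a => Q l a)
  rw [card_range] at this
  omega

/-- the condition at `0` and at the points of `H`, with a given class of the base point -/
def QB (Q : ℕ → ℕ → Prop) (l a : ℕ) (H : Finset ℕ) (p m : ℕ) : Prop :=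
  QH Q (insert 0 H) p m ∨ (p = l ∧ m % l ≠ a)

open Classical in
lemma nuB_QB_ne (Q : ℕ → ℕ → Prop) (l a : ℕ) (H : Finset ℕ) (p : ℕ) (hp : p ≠ l) :
    nuB (QB Q l a H) p = nuB (QH Q (insert 0 H)) p := by
  unfold nuB
  congr 1
  apply Finset.filter_congr
  intro r _
  unfold QB
  constructor
  · rintro (h | h)
    · exact h
    · exact absurd h.1 hp
  · exact Or.inl

lemma perB_QB (Q : ℕ → ℕ → Prop) (c : ℕ) (hQ : PerB Q c) (l a : ℕ) (H : Finset ℕ) :
    PerB (QB Q l a H) ((H.card + 1) * c + l) := by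
  have h1 := perB_QH Q c hQ (insert 0 H)
  constructor
  · intro p n
    unfold QB
    apply or_congr
    · exact h1.per p n
    · apply and_congr_right
      rintro rfl
      rw [Nat.mod_mod]
  · intro p hp
    by_cases h : p = l
    · have := nuB_le (QB Q l a H) p
      omega
    · rw [nuB_QB_ne Q l a H p h]
      refine (h1.few p hp).trans ?_
      have := Nat.mul_le_mul_right c (card_insert_le 0 H)
      omega

lemma sf_QB (Q : ℕ → ℕ → Prop) (l a y m : ℕ) (H : Finset ℕ) (hl : l.Prime) (hly : l ≤ y) :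
    Sf (QB Q l a H) y m ↔ (Sf Q y m ∧ ∀ h ∈ H, Sf Q y (m + h)) ∧ m % l = a := by
  have hlp : l ∈ pz y := mem_pz.2 ⟨hly, hl⟩
  have h0 : Sf (QH Q (insert 0 H)) y m ↔ (Sf Q y m ∧ ∀ h ∈ H, Sf Q y (m + h)) := by
    rw [sf_QH, forall_mem_insert, add_zero]
  rw [← h0]
  unfold Sf QB
  constructor
  · intro h
    refine ⟨fun p hp h1 => h p hp (Or.inl h1), ?_⟩
    by_contra h2
    exact h l hlp (Or.inr ⟨rfl, h2⟩)
  · rintro ⟨h1, h2⟩ p hp (h3 | h3)
    · exact h1 p hp h3
    · exact h3.2 h2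

open Classical in
lemma Vq_QB_empty (Q : ℕ → ℕ → Prop) (l a w : ℕ) (hl : l.Prime) (hlw : l ≤ w) (ha : a ∈ cls Q l) :
    Vq (QB Q l a ∅) w * (cls Q l).card = Vq Q w := by
  have hlp : l ∈ pz w := mem_pz.2 ⟨hlw, hl⟩
  have hl0 : (l : ℝ) ≠ 0 := by exact_mod_cast hl.ne_zero
  unfold Vq
  rw [← Finset.mul_prod_erase (pz w) _ hlp, ← Finset.mul_prod_erase (pz w) (fun p => 1 - (nuB Q p : ℝ) / p) hlp]
  have h1 : nuB (QB Q l a ∅) l + 1 = l := by
    have h2 : (range l).filter (fun r => QB Q l a ∅ l r) = (range l).erase a := by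
      ext r
      rw [mem_filter, mem_erase, mem_range]
      constructor
      · rintro ⟨h3, h4⟩
        refine ⟨?_, h3⟩
        rintro rfl
        rcases h4 with h4 | h4
        · obtain ⟨h, hh, h5⟩ := h4
          rw [mem_insert] at hh
          rcases hh with rfl | hh
          · exact ((mem_cls Q l r).1 ha).2 h5
          · exact absurd hh (notMem_empty _)
        · exact h4.2 (Nat.mod_eq_of_lt h3)
      · rintro ⟨h3, h4⟩
        refine ⟨h4, Or.inr ⟨rfl, ?_⟩⟩
        rw [Nat.mod_eq_of_lt h4]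
        exact h3
    have h3 : nuB (QB Q l a ∅) l = ((range l).filter (fun r => QB Q l a ∅ l r)).card := by
      unfold nuB
      congr
    rw [h3, h2, card_erase_of_mem (mem_range.2 ((mem_cls Q l a).1 ha).1), card_range]
    have := hl.pos
    omega
  have h1' : (nuB (QB Q l a ∅) l : ℝ) = l - 1 := by
    have : ((nuB (QB Q l a ∅) l + 1 : ℕ) : ℝ) = l := by rw [h1]
    push_cast at this
    linarith
  have h2' : (nuB Q l : ℝ) = l - (cls Q l).card := by
    have : (((cls Q l).card + nuB Q l : ℕ) : ℝ) = l := by rw [card_cls]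
    push_cast at this
    linarith
  have h3 : ∏ p ∈ (pz w).erase l, (1 - (nuB (QB Q l a ∅) p : ℝ) / p) =
      ∏ p ∈ (pz w).erase l, (1 - (nuB Q p : ℝ) / p) := by
    apply Finset.prod_congr rfl
    intro p hp
    rw [nuB_QB_ne Q l a ∅ p (ne_of_mem_erase hp)]
    have : QH Q (insert 0 ∅) = Q := by
      funext p m
      unfold QH
      simp
    rw [this]
  rw [h3, h1', h2']
  field_simp
  ring

open Classical in
/-- the number of good integers of a class in a period -/
lemma class_count (Q : ℕ → ℕ → Prop) (c : ℕ) (hQ : PerB Q c) (l a w : ℕ) (hl : l.Prime) (hlw : l ≤ w)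
    (ha : a ∈ cls Q l) :
    (((range (Mw w)).filter (fun m => Sf Q w m ∧ m % l = a)).card : ℝ) * (cls Q l).card =
      Mw w * Vq Q w := by
  have h1 := exact (QB Q l a ∅) _ (perB_QB Q c hQ l a ∅) w
  have h2 : ((range (Mw w)).filter (fun m => Sf (QB Q l a ∅) w m)).card =
      ((range (Mw w)).filter (fun m => Sf Q w m ∧ m % l = a)).card := by
    congr 1
    apply Finset.filter_congr
    intro m _
    rw [sf_QB Q l a w m ∅ hl hlw]
    simp
  rw [← Vq_QB_empty Q l a w hl hlw ha, ← mul_assoc, ← h1, h2]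

/-! ### chains -/

open Classical in
/-- the sets with a given residue sequence -/
noncomputable def Fam (G : ℕ → Prop) (ρ : ℕ → ℕ) (t : List ℕ) (s T : ℕ) : Finset (Finset ℕ) :=
  (powersetCard t.length (Ioc s T)).filter (fun H => (∀ h ∈ H, G h) ∧ res ρ H = t)

open Classical in
lemma mem_Fam (G : ℕ → Prop) (ρ : ℕ → ℕ) (t : List ℕ) (s T : ℕ) (H : Finset ℕ) :
    H ∈ Fam G ρ t s T ↔ (∀ h ∈ H, s < h ∧ h ≤ T) ∧ (∀ h ∈ H, G h) ∧ res ρ H = t := by
  unfold Fam
  rw [mem_filter, mem_powersetCard]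
  constructor
  · rintro ⟨⟨h1, h2⟩, h3, h4⟩
    exact ⟨fun h hh => mem_Ioc.1 (h1 hh), h3, h4⟩
  · rintro ⟨h1, h3, h4⟩
    exact ⟨⟨fun h hh => mem_Ioc.2 (h1 h hh), by rw [← h4, res_length]⟩, h3, h4⟩

open Classical in
lemma Fam_lower (G : ℕ → Prop) (ρ : ℕ → ℕ) (cl : Finset ℕ) (M D : ℕ)
    (hblock : ∀ b ∈ cl, ∀ s : ℕ, D ≤ ((Ioc s (s + M)).filter (fun h => G h ∧ ρ h = b)).card)
    (t : List ℕ) (ht : ∀ b ∈ t, b ∈ cl) (T : ℕ) :
    ∀ U s : ℕ, s + U * M ≤ T → D ^ t.length * U.choose t.length ≤ (Fam G ρ t s T).card := by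
  induction t with
  | nil =>
    intro U s _
    have : ∅ ∈ Fam G ρ [] s T := by
      rw [mem_Fam]
      simp [res_empty]
    have h1 := Finset.card_pos.2 ⟨_, this⟩
    simp only [List.length_nil, pow_zero, Nat.choose_zero_right, mul_one]
    omega
  | cons b t ih =>
    intro U
    induction U with
    | zero =>
      intro s _
      simp
    | succ U ihU =>
      intro s hs
      have hs2 : s + M + U * M ≤ T := by
        calc s + M + U * M = s + (U + 1) * M := by ring
          _ ≤ T := hs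
      obtain ⟨E, hE⟩ : ∃ E, E = (Ioc s (s + M)).filter (fun h => G h ∧ ρ h = b) := ⟨_, rfl⟩
      have hEcard : D ≤ E.card := by rw [hE]; exact hblock b (ht b (by simp)) s
      have hEmem : ∀ h ∈ E, s < h ∧ h ≤ s + M ∧ G h ∧ ρ h = b := by
        intro h hh
        rw [hE, mem_filter, mem_Ioc] at hh
        exact ⟨hh.1.1, hh.1.2, hh.2.1, hh.2.2⟩
      obtain ⟨S1, hS1⟩ : ∃ S1, S1 = E.biUnion (fun h => (Fam G ρ t h T).image (fun H => insert h H)) := ⟨_, rfl⟩
      have hS1card : S1.card = ∑ h ∈ E, (Fam G ρ t h T).card := by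
        rw [hS1, Finset.card_biUnion]
        · apply Finset.sum_congr rfl
          intro h _
          apply Finset.card_image_of_injOn
          intro H1 h1 H2 h2 he
          have g1 : h ∉ H1 := fun hh => lt_irrefl _ (((mem_Fam G ρ t h T H1).1 h1).1 h hh).1
          have g2 : h ∉ H2 := fun hh => lt_irrefl _ (((mem_Fam G ρ t h T H2).1 h2).1 h hh).1
          simp only at he
          rw [← Finset.erase_insert g1, ← Finset.erase_insert g2, he]
        · intro h1 _ h2 _ hne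
          rw [Function.onFun, Finset.disjoint_left]
          intro H hH1 hH2
          rw [mem_image] at hH1 hH2
          obtain ⟨K1, hK1, e1⟩ := hH1
          obtain ⟨K2, hK2, e2⟩ := hH2
          have f1 : h1 ∈ insert h2 K2 := by rw [e2, ← e1]; exact mem_insert_self _ _
          have f2 : h2 ∈ insert h1 K1 := by rw [e1, ← e2]; exact mem_insert_self _ _
          rw [mem_insert] at f1 f2
          rcases f1 with f1 | f1
          · exact hne f1
          · rcases f2 with f2 | f2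
            · exact hne f2.symm
            · have g1 := (((mem_Fam G ρ t h2 T K2).1 hK2).1 h1 f1).1
              have g2 := (((mem_Fam G ρ t h1 T K1).1 hK1).1 h2 f2).1
              omega
      have hS1low : D * (D ^ t.length * U.choose t.length) ≤ S1.card := by
        rw [hS1card]
        calc D * (D ^ t.length * U.choose t.length) ≤ E.card * (D ^ t.length * U.choose t.length) :=
              Nat.mul_le_mul_right _ hEcard
          _ = ∑ h ∈ E, D ^ t.length * U.choose t.length := by rw [Finset.sum_const, smul_eq_mul]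
          _ ≤ ∑ h ∈ E, (Fam G ρ t h T).card := by
              apply Finset.sum_le_sum
              intro h hh
              have := hEmem h hh
              exact ih (fun b' hb' => ht b' (by simp [hb'])) U h (by omega)
      have hS2low := ihU (s + M) hs2
      have hdisj : Disjoint S1 (Fam G ρ (b :: t) (s + M) T) := by
        rw [Finset.disjoint_left]
        intro H hH1 hH2
        rw [hS1, mem_biUnion] at hH1
        obtain ⟨h, hh, hH1⟩ := hH1
        rw [mem_image] at hH1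
        obtain ⟨K, _, rfl⟩ := hH1
        have g1 := (((mem_Fam G ρ (b :: t) (s + M) T _).1 hH2).1 h (mem_insert_self _ _)).1
        have g2 := hEmem h hh
        omega
      have hsub : S1 ∪ Fam G ρ (b :: t) (s + M) T ⊆ Fam G ρ (b :: t) s T := by
        apply Finset.union_subset
        · intro H hH
          rw [hS1, mem_biUnion] at hH
          obtain ⟨h, hh, hH⟩ := hH
          rw [mem_image] at hH
          obtain ⟨K, hK, rfl⟩ := hH
          rw [mem_Fam] at hK ⊢
          obtain ⟨k1, k2, k3⟩ := hK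
          obtain ⟨g1, g2, g3, g4⟩ := hEmem h hh
          have hhT : h ≤ T := by
            have : M ≤ M + U * M := Nat.le_add_right _ _
            omega
          refine ⟨?_, ?_, ?_⟩
          · intro x hx
            rw [mem_insert] at hx
            rcases hx with rfl | hx
            · exact ⟨g1, hhT⟩
            · have := k1 x hx
              omega
          · intro x hx
            rw [mem_insert] at hx
            rcases hx with rfl | hx
            · exact g3
            · exact k2 x hx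
          · rw [res_insert ρ h K (fun x hx => (k1 x hx).1), g4, k3]
        · intro H hH
          rw [mem_Fam] at hH ⊢
          refine ⟨fun h hh => ?_, hH.2⟩
          have := hH.1 h hh
          omega
      have hcard := card_le_card hsub
      rw [card_union_of_disjoint hdisj] at hcard
      have hpas : (U + 1).choose (t.length + 1) = U.choose t.length + U.choose (t.length + 1) :=
        Nat.choose_succ_succ U t.length
      simp only [List.length_cons] at hS2low ⊢
      rw [hpas]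
      calc D ^ (t.length + 1) * (U.choose t.length + U.choose (t.length + 1)) =
          D * (D ^ t.length * U.choose t.length) + D ^ (t.length + 1) * U.choose (t.length + 1) := by ring
        _ ≤ _ := by omega

/-! ### the marked averages -/

open Classical in
/-- the marked average of the singular series -/
noncomputable def SL (Q : ℕ → ℕ → Prop) (l a y T : ℕ) (t : List ℕ) : ℝ :=
  ∑ H ∈ (powersetCard t.length (Icc 1 T)).filter (fun H => res (fun h => (a + h) % l) H = t),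
    Vq (QB Q l a H) y

lemma SL_nonneg (Q : ℕ → ℕ → Prop) (l a y T : ℕ) (t : List ℕ) : 0 ≤ SL Q l a y T t :=
  Finset.sum_nonneg fun _ _ => Vq_nonneg _ _

open Classical in
lemma block_count (Q : ℕ → ℕ → Prop) (c : ℕ) (hQ : PerB Q c) (l b w m s : ℕ) (hl : l.Prime) (hlw : l ≤ w) :
    ((Ioc s (s + Mw w)).filter (fun h => Sf Q w (m + h) ∧ (m + h) % l = b)).card =
      ((range (Mw w)).filter (fun n => Sf Q w n ∧ n % l = b)).card := by
  have hd : l ∣ Mw w := Finset.dvd_prod_of_mem _ (mem_pz.2 ⟨hlw, hl⟩)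
  have hper : Function.Periodic (fun n => Sf Q w n ∧ n % l = b) (Mw w) := by
    intro n
    apply propext
    have h1 := sf_periodic Q c hQ w n
    simp only at h1
    show (Sf Q w (n + Mw w) ∧ (n + Mw w) % l = b) ↔ (Sf Q w n ∧ n % l = b)
    have h2 : (n + Mw w) % l = n % l := by
      obtain ⟨k, hk⟩ := hd
      rw [hk, Nat.add_mul_mod_self_left]
    rw [h1, h2]
  have h2 := Nat.filter_Ico_card_eq_of_periodic (m + s + 1) (Mw w) _ hper
  have h3 := Nat.filter_Ico_card_eq_of_periodic 0 (Mw w) _ hper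
  rw [zero_add, Nat.Ico_zero_eq_range] at h3
  rw [h3, ← h2]
  apply Finset.card_bij (fun h _ => m + h)
  · intro h hh
    rw [mem_filter, mem_Ioc] at hh
    rw [mem_filter, mem_Ico]
    exact ⟨by omega, hh.2⟩
  · intro x _ y _ hxy
    omega
  · intro n hn
    rw [mem_filter, mem_Ico] at hn
    refine ⟨n - m, ?_, by omega⟩
    rw [mem_filter, mem_Ioc, show m + (n - m) = n by omega]
    exact ⟨by omega, hn.2⟩

open Classical in
/-- the marked average for the small primes, as an average over a period -/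
lemma SL_small (Q : ℕ → ℕ → Prop) (c : ℕ) (hQ : PerB Q c) (l a w T : ℕ) (hl : l.Prime) (hlw : l ≤ w)
    (t : List ℕ) :
    (Mw w : ℝ) * SL Q l a w T t =
      ∑ m ∈ (range (Mw w)).filter (fun m => Sf Q w m ∧ m % l = a),
        ((Fam (fun h => Sf Q w (m + h)) (fun h => (m + h) % l) t 0 T).card : ℝ) := by
  unfold SL
  rw [Finset.mul_sum]
  have h1 : ∀ H ∈ (powersetCard t.length (Icc 1 T)).filter (fun H => res (fun h => (a + h) % l) H = t),
      (Mw w : ℝ) * Vq (QB Q l a H) w = ∑ m ∈ (range (Mw w)).filter (fun m => Sf Q w m ∧ m % l = a),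
        if (∀ h ∈ H, Sf Q w (m + h)) then (1 : ℝ) else 0 := by
    intro H _
    rw [← exact (QB Q l a H) _ (perB_QB Q c hQ l a H) w]
    rw [Finset.sum_ite, Finset.sum_const_zero, add_zero, Finset.sum_const, nsmul_eq_mul, mul_one,
      Finset.filter_filter]
    congr 2
    apply Finset.filter_congr
    intro m _
    rw [sf_QB Q l a w m H hl hlw]
    tauto
  rw [Finset.sum_congr rfl h1, Finset.sum_comm]
  apply Finset.sum_congr rfl
  intro m hm
  rw [mem_filter] at hm
  rw [Finset.sum_ite, Finset.sum_const_zero, add_zero, Finset.sum_const, nsmul_eq_mul, mul_one,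
    Finset.filter_filter]
  have hres : (fun h => (a + h) % l) = (fun h => (m + h) % l) := by
    funext h
    rw [← hm.2.2, Nat.mod_add_mod]
  rw [hres]
  unfold Fam
  have hI : Ioc 0 T = Icc 1 T := by
    ext x
    rw [mem_Ioc, mem_Icc]
    omega
  rw [hI]
  congr 2
  apply Finset.filter_congr
  intro H _
  tauto

/-- the number of blocks -/
lemma blocks (j M T : ℕ) (hM : 0 < M) (η : ℝ) (hη : 0 < η)
    (hT : (M : ℝ) * (1 + j) * (j + 1) / η ≤ T) :
    (1 - η) * ((T : ℝ) ^ j / j.factorial) ≤ (M : ℝ) ^ j * ((T / M).choose j : ℝ) := by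
  have hMr : (0 : ℝ) < M := by exact_mod_cast hM
  have hjf : (0 : ℝ) < j.factorial := by exact_mod_cast Nat.factorial_pos j
  have hj0 : (0 : ℝ) ≤ j := Nat.cast_nonneg j
  by_cases hη1 : 1 ≤ η
  · have : (1 - η) * ((T : ℝ) ^ j / j.factorial) ≤ 0 :=
      mul_nonpos_of_nonpos_of_nonneg (by linarith) (by positivity)
    exact this.trans (by positivity)
  rw [not_le] at hη1
  rw [div_le_iff₀ hη] at hT
  have hT0 : (0 : ℝ) < T := by
    by_contra hcon
    rw [not_lt] at hcon
    have : (T : ℝ) * η ≤ 0 := mul_nonpos_of_nonpos_of_nonneg hcon hη.le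
    have h2 : 0 < (M : ℝ) * (1 + j) * (j + 1) := by positivity
    linarith
  have hU : |((T / M : ℕ) : ℝ) - (T : ℝ) / M| ≤ 1 := by
    have h1 : ((T / M : ℕ) : ℝ) ≤ (T : ℝ) / M := Nat.cast_div_le
    have h2 : (T : ℝ) / M ≤ ((T / M : ℕ) : ℝ) + 1 := by
      rw [div_le_iff₀ hMr]
      have h3 : T < (T / M + 1) * M := by
        have := Nat.div_add_mod T M
        have := Nat.mod_lt T hM
        nlinarith
      exact_mod_cast h3.le
    rw [abs_le]
    constructor <;> linarith
  have hbig : 1 + (j : ℝ) ≤ (T : ℝ) / M := by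
    rw [le_div_iff₀ hMr]
    have : (M : ℝ) * (1 + j) * 1 ≤ M * (1 + j) * (j + 1) := by gcongr; linarith
    nlinarith
  have hcb := (choose_bounds (T / M) j ((T : ℝ) / M) 1 hU hbig).1
  have h3 : (M : ℝ) ^ j * (((T : ℝ) / M - 1 - j) ^ j / j.factorial) ≤ (M : ℝ) ^ j * ((T / M).choose j : ℝ) := by
    gcongr
  refine le_trans ?_ h3
  have h4 : (M : ℝ) ^ j * (((T : ℝ) / M - 1 - j) ^ j / j.factorial) =
      (T : ℝ) ^ j / j.factorial * (1 + -(M * (1 + j) / T)) ^ j := by
    have : (M : ℝ) * ((T : ℝ) / M - 1 - j) = T * (1 + -(M * (1 + j) / T)) := by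
      field_simp
      ring
    rw [mul_div_assoc', ← mul_pow, this, mul_pow]
    ring
  rw [h4, mul_comm (1 - η)]
  apply mul_le_mul_of_nonneg_left _ (by positivity)
  have h5 : (M : ℝ) * (1 + j) / T ≤ 1 := by
    rw [div_le_one hT0]
    have : (M : ℝ) * (1 + j) * 1 ≤ M * (1 + j) * (j + 1) := by gcongr; linarith
    nlinarith
  refine le_trans ?_ (one_add_mul_le_pow (by linarith) j)
  have h6 : (j : ℝ) * (M * (1 + j) / T) ≤ η := by
    rw [mul_div_assoc', div_le_iff₀ hT0]
    have : (j : ℝ) * (M * (1 + j)) ≤ M * (1 + j) * (j + 1) := by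
      have h7 : 0 ≤ (M : ℝ) * (1 + j) := by positivity
      nlinarith
    linarith
  linarith

open Classical in
/-- **The small primes.** -/
theorem small_mark (j w l : ℕ) (hl : l.Prime) (hlw : l ≤ w) (η : ℝ) (hη : 0 < η) :
    ∃ T0 : ℕ, ∀ T : ℕ, T0 ≤ T →
    ∀ (Q : ℕ → ℕ → Prop) (c : ℕ), PerB Q c → (∀ p : ℕ, p.Prime → nuB Q p < p) →
    ∀ a ∈ cls Q l, ∀ t ∈ Ls (cls Q l) j,
    (1 - η) * ((Vq Q w / (cls Q l).card) ^ (j + 1) * ((T : ℝ) ^ j / j.factorial)) ≤ SL Q l a w T t := by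
  obtain ⟨M, hM⟩ : ∃ M, M = Mw w := ⟨_, rfl⟩
  have hMpos : 0 < M := by rw [hM]; exact Mw_pos w
  have hMr : (0 : ℝ) < M := by exact_mod_cast hMpos
  obtain ⟨T0, hT0⟩ : ∃ T0 : ℕ, (M : ℝ) * (1 + j) * (j + 1) / η ≤ T0 := exists_nat_ge _
  refine ⟨T0, ?_⟩
  intro T hT Q c hQ hadm a ha t ht
  have hb := blocks j M T hMpos η hη (hT0.trans (by exact_mod_cast hT))
  have hAcard : 0 < (cls Q l).card := Finset.card_pos.2 ⟨a, ha⟩
  have hA0 : (0 : ℝ) < (cls Q l).card := by exact_mod_cast hAcard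
  rw [mem_Ls] at ht
  obtain ⟨D, hD⟩ : ∃ D, D = ((range (Mw w)).filter (fun m => Sf Q w m ∧ m % l = a)).card := ⟨_, rfl⟩
  have hDr : (D : ℝ) = M * (Vq Q w / (cls Q l).card) := by
    have := class_count Q c hQ l a w hl hlw ha
    rw [← hD, ← hM] at this
    field_simp
    exact this
  have hblock : ∀ m : ℕ, ∀ b ∈ cls Q l, ∀ s : ℕ,
      D ≤ ((Ioc s (s + M)).filter (fun h => Sf Q w (m + h) ∧ (m + h) % l = b)).card := by
    intro m b hb s
    rw [hM, block_count Q c hQ l b w m s hl hlw]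
    have h1 := class_count Q c hQ l a w hl hlw ha
    have h2 := class_count Q c hQ l b w hl hlw hb
    rw [← h2, ← hD] at h1
    have h3 := mul_right_cancel₀ hA0.ne' h1
    have h4 : D = ((range (Mw w)).filter (fun n => Sf Q w n ∧ n % l = b)).card := by exact_mod_cast h3
    exact h4.le
  have hsum := SL_small Q c hQ l a w T hl hlw t
  rw [← hM] at hsum
  have hlow : (D : ℝ) * ((D : ℝ) ^ j * ((T / M).choose j : ℝ)) ≤ M * SL Q l a w T t := by
    rw [hsum]
    have h1 : ∀ m ∈ (range M).filter (fun m => Sf Q w m ∧ m % l = a),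
        (D : ℝ) ^ j * ((T / M).choose j : ℝ) ≤
          ((Fam (fun h => Sf Q w (m + h)) (fun h => (m + h) % l) t 0 T).card : ℝ) := by
      intro m _
      have h2 := Fam_lower (fun h => Sf Q w (m + h)) (fun h => (m + h) % l) (cls Q l) M D (hblock m) t
        ht.2 T (T / M) 0 (by rw [zero_add]; exact Nat.div_mul_le_self T M)
      rw [ht.1] at h2
      exact_mod_cast h2
    have h3 := Finset.card_nsmul_le_sum _ _ _ h1
    rw [nsmul_eq_mul] at h3
    have h4 : ((range M).filter (fun m => Sf Q w m ∧ m % l = a)).card = D := by rw [hD, hM]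
    rw [h4] at h3
    exact h3
  obtain ⟨v, hv⟩ : ∃ v, v = Vq Q w / (cls Q l).card := ⟨_, rfl⟩
  have hv0 : 0 ≤ v := by rw [hv]; exact div_nonneg (Vq_nonneg Q w) hA0.le
  rw [← hv] at hDr ⊢
  have h5 : (D : ℝ) * ((D : ℝ) ^ j * ((T / M).choose j : ℝ)) =
      M * (v ^ (j + 1) * ((M : ℝ) ^ j * ((T / M).choose j : ℝ))) := by
    rw [hDr, mul_pow, pow_succ]
    ring
  rw [h5] at hlow
  refine le_trans ?_ (le_of_mul_le_mul_left hlow hMr)
  calc (1 - η) * (v ^ (j + 1) * ((T : ℝ) ^ j / j.factorial)) =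
      v ^ (j + 1) * ((1 - η) * ((T : ℝ) ^ j / j.factorial)) := by ring
    _ ≤ _ := by gcongr

open Classical in
/-- the classes of the base point -/
lemma sum_base (Q : ℕ → ℕ → Prop) (c : ℕ) (hQ : PerB Q c) (l y : ℕ) (hl : l.Prime) (hly : l ≤ y)
    (H : Finset ℕ) :
    ∑ a ∈ cls Q l, Vq (QB Q l a H) y ≤ Vq (QH Q (insert 0 H)) y := by
  have hM : (0 : ℝ) < Mw y := by exact_mod_cast Mw_pos y
  apply le_of_mul_le_mul_left _ hM
  rw [Finset.mul_sum, ← exact (QH Q (insert 0 H)) _ (perB_QH Q c hQ _) y]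
  have h1 : ∀ a ∈ cls Q l, (Mw y : ℝ) * Vq (QB Q l a H) y =
      (((range (Mw y)).filter (fun m => Sf (QB Q l a H) y m)).card : ℝ) :=
    fun a _ => (exact (QB Q l a H) _ (perB_QB Q c hQ l a H) y).symm
  rw [Finset.sum_congr rfl h1, ← Nat.cast_sum, ← Finset.card_biUnion]
  · have : ((cls Q l).biUnion (fun a => (range (Mw y)).filter (fun m => Sf (QB Q l a H) y m))) ⊆
        (range (Mw y)).filter (fun m => Sf (QH Q (insert 0 H)) y m) := by
      intro m hm
      rw [mem_biUnion] at hm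
      obtain ⟨a, _, hm⟩ := hm
      rw [mem_filter] at hm ⊢
      refine ⟨hm.1, ?_⟩
      intro p hp h2
      exact hm.2 p hp (Or.inl h2)
    exact_mod_cast card_le_card this
  · intro a _ b _ hab
    rw [Function.onFun, Finset.disjoint_left]
    intro m h1 h2
    rw [mem_filter, sf_QB Q l _ y m H hl hly] at h1 h2
    exact hab (h1.2.2.symm.trans h2.2.2)

open Classical in
lemma SL_total (Q : ℕ → ℕ → Prop) (c : ℕ) (hQ : PerB Q c) (l y T j : ℕ) (hl : l.Prime) (hly : l ≤ y) :
    ∑ a ∈ cls Q l, ∑ t ∈ Ls (cls Q l) j, SL Q l a y T t ≤ Ps Q y j T := by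
  unfold Ps
  have h1 : ∀ a ∈ cls Q l, ∑ t ∈ Ls (cls Q l) j, SL Q l a y T t ≤
      ∑ H ∈ powersetCard j (Icc 1 T), Vq (QB Q l a H) y := by
    intro a _
    have h2 : ∀ t ∈ Ls (cls Q l) j, SL Q l a y T t = ∑ H ∈ (powersetCard j (Icc 1 T)).filter
        (fun H => res (fun h => (a + h) % l) H = t), Vq (QB Q l a H) y := by
      intro t ht
      unfold SL
      rw [((mem_Ls _ _ _).1 ht).1]
    rw [Finset.sum_congr rfl h2]
    apply Finset.sum_fiberwise_le_sum_of_sum_fiber_nonneg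
    intro t _
    exact Finset.sum_nonneg fun _ _ => Vq_nonneg _ _
  refine (Finset.sum_le_sum h1).trans ?_
  rw [Finset.sum_comm]
  apply Finset.sum_le_sum
  intro H _
  exact sum_base Q c hQ l y hl hly H

open Classical in
/-- **Lower bound for the marked averages.** -/
theorem lower_mark (c j l : ℕ) (hl : l.Prime) (η : ℝ) (hη : 0 < η) (w0 : ℕ) :
    ∃ w T0 : ℕ, w0 ≤ w ∧ l ≤ w ∧ ∀ T : ℕ, T0 ≤ T →
    ∀ (Q : ℕ → ℕ → Prop), PerB Q c → (∀ p : ℕ, p.Prime → nuB Q p < p) → ∀ y : ℕ, w ≤ y →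
    ∀ a ∈ cls Q l, ∀ t ∈ Ls (cls Q l) j,
    (1 - η) * (Vq Q y * ((T * Vq Q y) ^ j / j.factorial) / (cls Q l).card ^ (j + 1)) ≤ SL Q l a y T t := by
  obtain ⟨w1, hw1⟩ : ∃ w1 : ℕ, (((j + 1) * c : ℕ) : ℝ) ^ 2 / (η / 2) ≤ w1 := exists_nat_ge _
  obtain ⟨w, hw⟩ : ∃ w, w = w0 + l + w1 + 2 * ((j + 1) * c) + 1 := ⟨_, rfl⟩
  have hlw : l ≤ w := by omega
  obtain ⟨T0, hT0⟩ := small_mark j w l hl hlw (η / 2) (by positivity)
  refine ⟨w, T0, by omega, hlw, ?_⟩
  intro T hT Q hQ hadm y hwy a ha t ht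
  by_cases hη1 : 1 ≤ η
  · have hA : (0 : ℝ) < ((cls Q l).card : ℝ) ^ (j + 1) := by
      have := Finset.card_pos.2 ⟨a, ha⟩
      positivity
    have hV := Vq_nonneg Q y
    have : (1 - η) * (Vq Q y * ((T * Vq Q y) ^ j / j.factorial) / (cls Q l).card ^ (j + 1)) ≤ 0 :=
      mul_nonpos_of_nonpos_of_nonneg (by linarith) (by positivity)
    exact this.trans (SL_nonneg _ _ _ _ _ _)
  rw [not_le] at hη1
  have hs := hT0 T hT Q c hQ hadm a ha t ht
  have hAcard : 0 < (cls Q l).card := Finset.card_pos.2 ⟨a, ha⟩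
  have hA0 : (0 : ℝ) < (cls Q l).card := by exact_mod_cast hAcard
  have htl := ((mem_Ls _ _ _).1 ht).1
  have hw1' : (((j + 1) * c : ℕ) : ℝ) ^ 2 / w ≤ η / 2 := by
    have hwr : (0 : ℝ) < w := by exact_mod_cast (by omega : 0 < w)
    rw [div_le_iff₀ (by positivity)] at hw1
    rw [div_le_iff₀ hwr]
    have : (w1 : ℝ) ≤ w := by exact_mod_cast (by omega : w1 ≤ w)
    nlinarith
  obtain ⟨R, hR⟩ : ∃ R, R = Vt Q w y ^ (j + 1) := ⟨_, rfl⟩
  have hR0 : 0 ≤ R := by rw [hR]; exact pow_nonneg (Vt_nonneg Q w y) _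
  have hterm : ∀ H ∈ (powersetCard t.length (Icc 1 T)).filter (fun H => res (fun h => (a + h) % l) H = t),
      R * (1 - η / 2) * Vq (QB Q l a H) w ≤ Vq (QB Q l a H) y := by
    intro H hH
    rw [mem_filter, mem_powersetCard, htl] at hH
    rw [Vq_split (QB Q l a H) w y hwy, mul_comm]
    apply mul_le_mul_of_nonneg_left _ (Vq_nonneg _ _)
    have h0 : (0 : ℕ) ∉ H := fun h => by
      have := mem_Icc.1 (hH.1.1 h)
      omega
    have hcard : (insert 0 H).card = j + 1 := by
      rw [card_insert_of_notMem h0, hH.1.2]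
    have h2 := tail_lo Q c hQ (insert 0 H) w y (by omega) (by rw [hcard]; omega)
    rw [hcard, ← hR] at h2
    have h3 : Vt (QB Q l a H) w y = Vt (QH Q (insert 0 H)) w y := by
      unfold Vt
      apply Finset.prod_congr rfl
      intro p hp
      rw [mem_filter] at hp
      rw [nuB_QB_ne Q l a H p (by omega)]
    rw [h3]
    refine le_trans ?_ h2
    apply mul_le_mul_of_nonneg_left _ hR0
    linarith
  have hsum := Finset.sum_le_sum hterm
  rw [← Finset.mul_sum] at hsum
  have hsum' : R * (1 - η / 2) * SL Q l a w T t ≤ SL Q l a y T t := hsum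
  refine le_trans ?_ hsum'
  have hV : Vq Q y = Vq Q w * Vt Q w y := Vq_split Q w y hwy
  have hmain : Vq Q y * ((T * Vq Q y) ^ j / j.factorial) / ((cls Q l).card : ℝ) ^ (j + 1) =
      R * ((Vq Q w / (cls Q l).card) ^ (j + 1) * ((T : ℝ) ^ j / j.factorial)) := by
    rw [hR, hV, div_pow, mul_pow, mul_pow, pow_succ (Vq Q w), pow_succ (Vt Q w y)]
    ring
  rw [hmain]
  obtain ⟨S, hS⟩ : ∃ S, S = (Vq Q w / (cls Q l).card) ^ (j + 1) * ((T : ℝ) ^ j / j.factorial) := ⟨_, rfl⟩
  rw [← hS] at hs ⊢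
  have hS0 : 0 ≤ S := by
    rw [hS]
    have := Vq_nonneg Q w
    positivity
  calc (1 - η) * (R * S) ≤ R * (1 - η / 2) * ((1 - η / 2) * S) := by
        have h6 : 1 - η ≤ (1 - η / 2) * (1 - η / 2) := by nlinarith [sq_nonneg η]
        have h7 : 0 ≤ R * S := mul_nonneg hR0 hS0
        nlinarith [mul_le_mul_of_nonneg_right h6 h7]
    _ ≤ _ := by
        apply mul_le_mul_of_nonneg_left hs
        exact mul_nonneg hR0 (by linarith)

open Classical in
/-- **The marked averages of the singular series.** -/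
theorem mark_avg (c j l : ℕ) (hl : l.Prime) (η : ℝ) (hη : 0 < η) (hη1 : η ≤ 1) :
    ∃ (w : ℕ) (η' : ℝ) (T0 : ℕ), 0 < η' ∧ l ≤ w ∧ ∀ T : ℕ, T0 ≤ T → ∀ Q : ℕ → ℕ → Prop, PerB Q c →
      (∀ p : ℕ, p.Prime → nuB Q p < p) → ∀ y : ℕ, w ≤ y →
      (∀ T' : ℕ, T ≤ 2 * T' → T' ≤ 2 * T →
        ∀ t ∈ Icc 1 T', ((((pz y).filter (fun p : ℕ => T' < p ∧ CoG Q p t)).card : ℕ) : ℝ) ≤ η' * T') →
      ∀ a ∈ cls Q l, ∀ t ∈ Ls (cls Q l) j,
      |SL Q l a y T t - Vq Q y * ((T * Vq Q y) ^ j / j.factorial) / (cls Q l).card ^ (j + 1)| ≤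
        η * (Vq Q y * ((T * Vq Q y) ^ j / j.factorial)) := by
  obtain ⟨w1, η', T1, hη', hpalm⟩ := palm_avg c j (η / 2) (by positivity) (by linarith)
  obtain ⟨w, T0, hw0, hlw, hlow⟩ := lower_mark c j l hl (η / 2) (by positivity) w1
  refine ⟨w, η', max T0 T1, hη', hlw, ?_⟩
  intro T hT Q hQ hadm y hwy hlarge a ha t ht
  have hpa := hpalm T ((le_max_right _ _).trans hT) Q hQ hadm y (hw0.trans hwy) hlarge
  have hlo := hlow T ((le_max_left _ _).trans hT) Q hQ hadm y hwy
  have htot := SL_total Q c hQ l y T j hl (hlw.trans hwy)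
  obtain ⟨A, hA⟩ : ∃ A, A = (cls Q l).card := ⟨_, rfl⟩
  have hAcard : 0 < A := by rw [hA]; exact Finset.card_pos.2 ⟨a, ha⟩
  have hA0 : (0 : ℝ) < A := by exact_mod_cast hAcard
  have hA1 : (1 : ℝ) ≤ A := by exact_mod_cast hAcard
  rw [← hA] at hlo ⊢
  obtain ⟨m, hm⟩ : ∃ m : ℝ, m = Vq Q y * ((T * Vq Q y) ^ j / j.factorial) := ⟨_, rfl⟩
  rw [← hm] at hpa hlo ⊢
  have hm0 : 0 ≤ m := by
    rw [hm]
    have := Vq_nonneg Q y
    positivity
  have hApow : (1 : ℝ) ≤ (A : ℝ) ^ (j + 1) := one_le_pow₀ hA1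
  have hmA : m / (A : ℝ) ^ (j + 1) ≤ m := div_le_self hm0 hApow
  have hmA0 : 0 ≤ m / (A : ℝ) ^ (j + 1) := by positivity
  have h1 := hlo a ha t ht
  -- upper bound
  have hnn : ∀ a' ∈ cls Q l, 0 ≤ ∑ t' ∈ Ls (cls Q l) j, (SL Q l a' y T t' - (1 - η / 2) * (m / (A : ℝ) ^ (j + 1))) := by
    intro a' ha'
    apply Finset.sum_nonneg
    intro t' ht'
    have := hlo a' ha' t' ht'
    linarith
  have h2 : ∑ t' ∈ Ls (cls Q l) j, (SL Q l a y T t' - (1 - η / 2) * (m / (A : ℝ) ^ (j + 1))) ≤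
      ∑ a' ∈ cls Q l, ∑ t' ∈ Ls (cls Q l) j, (SL Q l a' y T t' - (1 - η / 2) * (m / (A : ℝ) ^ (j + 1))) :=
    Finset.single_le_sum (f := fun a' => ∑ t' ∈ Ls (cls Q l) j,
      (SL Q l a' y T t' - (1 - η / 2) * (m / (A : ℝ) ^ (j + 1)))) hnn ha
  have h3 : SL Q l a y T t - (1 - η / 2) * (m / (A : ℝ) ^ (j + 1)) ≤
      ∑ t' ∈ Ls (cls Q l) j, (SL Q l a y T t' - (1 - η / 2) * (m / (A : ℝ) ^ (j + 1))) :=
    Finset.single_le_sum (f := fun t' => SL Q l a y T t' - (1 - η / 2) * (m / (A : ℝ) ^ (j + 1)))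
      (fun t' ht' => by
        have := hlo a ha t' ht'
        linarith) ht
  have h4 : ∑ a' ∈ cls Q l, ∑ t' ∈ Ls (cls Q l) j, (SL Q l a' y T t' - (1 - η / 2) * (m / (A : ℝ) ^ (j + 1))) =
      ∑ a' ∈ cls Q l, ∑ t' ∈ Ls (cls Q l) j, SL Q l a' y T t' - (1 - η / 2) * m := by
    have h5 : ∀ a' ∈ cls Q l, ∑ t' ∈ Ls (cls Q l) j, (SL Q l a' y T t' - (1 - η / 2) * (m / (A : ℝ) ^ (j + 1))) =
        ∑ t' ∈ Ls (cls Q l) j, SL Q l a' y T t' - (A : ℝ) ^ j * ((1 - η / 2) * (m / (A : ℝ) ^ (j + 1))) := by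
      intro a' _
      rw [Finset.sum_sub_distrib, Finset.sum_const, card_Ls, ← hA, nsmul_eq_mul]
      push_cast
      rfl
    rw [Finset.sum_congr rfl h5, Finset.sum_sub_distrib, Finset.sum_const, ← hA, nsmul_eq_mul, pow_succ]
    congr 1
    field_simp
  have h6 := (abs_le.1 hpa).2
  rw [abs_le]
  constructor
  · nlinarith
  · nlinarith

end Pool.Agent.V11146.MK
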