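import Pool.Agent.V11146.MK.Poly
import Pool.Agent.Y879.GL.Pattern

set_option autoImplicit false

/-!
# Consecutive elements of a set, their classes, and changes of variables
-/

namespace Pool.Agent.V11146.MK

open Polynomial Finset Filter
open Pool.Agent.W123.RP Pool.Agent.H373R2.T7 Pool.Agent.W123.RU Pool.Agent.W123.RU.Poly
open Pool.Agent.TH464.PW Pool.Agent.TH464.PO

/-- `n 0 < n 1 < … < n k` are consecutive elements of `S` -/
def Consecutive (S : ℕ → Prop) (k : ℕ) (n : ℕ → ℕ) : Prop :=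
  (∀ i ≤ k, S (n i)) ∧ ∀ i < k, n i < n (i + 1) ∧ ∀ m, n i < m → m < n (i + 1) → ¬ S m

/-- `g` and the `k` elements of `S` after `g` have the classes `a 0, …, a k` -/
def Runs (S : ℕ → Prop) (κ : ℕ → ℕ) (k : ℕ) (a : ℕ → ℕ) (g : ℕ) : Prop :=
  ∃ n : ℕ → ℕ, n 0 = g ∧ Consecutive S k n ∧ ∀ i ≤ k, κ (n i) = a i

/-- recursive form -/
def PatK (S : ℕ → Prop) (κ : ℕ → ℕ) : List ℕ → ℕ → Prop
  | [], _ => True
  | b :: β, g => ∃ g', g < g' ∧ S g' ∧ (∀ n, g < n → n < g' → ¬ S n) ∧ κ g' = b ∧ PatK S κ β g'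

lemma patK_mod (G : ℕ → Prop) (l : ℕ) (β : List ℕ) (g : ℕ) : PatK G (fun n => n % l) β g ↔ Pat G l β g := by
  induction β generalizing g with
  | nil => exact Iff.rfl
  | cons b β ih =>
    unfold PatK Pat
    constructor
    · rintro ⟨g', h1, h2, h3, h4, h5⟩
      exact ⟨g', h1, h2, h3, h4, (ih g').1 h5⟩
    · rintro ⟨g', h1, h2, h3, h4, h5⟩
      exact ⟨g', h1, h2, h3, h4, (ih g').2 h5⟩

/-- the list `a 1, …, a k` -/
def lst (a : ℕ → ℕ) : ℕ → List ℕ
  | 0 => []
  | k + 1 => a 1 :: lst (fun i => a (i + 1)) k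

lemma mem_lst (a : ℕ → ℕ) (k : ℕ) (b : ℕ) : b ∈ lst a k → ∃ i, 1 ≤ i ∧ i ≤ k ∧ b = a i := by
  induction k generalizing a with
  | zero => simp [lst]
  | succ k ih =>
    simp only [lst, List.mem_cons]
    rintro (h | h)
    · exact ⟨1, le_rfl, by omega, h⟩
    · obtain ⟨i, h1, h2, h3⟩ := ih _ h
      exact ⟨i + 1, by omega, by omega, h3⟩

lemma lst_length (a : ℕ → ℕ) (k : ℕ) : (lst a k).length = k := by
  induction k generalizing a with
  | zero => rfl
  | succ k ih => simp [lst, ih]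

lemma runs_iff (S : ℕ → Prop) (κ : ℕ → ℕ) (k : ℕ) (a : ℕ → ℕ) (g : ℕ) :
    Runs S κ k a g ↔ S g ∧ κ g = a 0 ∧ PatK S κ (lst a k) g := by
  induction k generalizing a g with
  | zero =>
    constructor
    · rintro ⟨n, h1, h2, h3⟩
      refine ⟨?_, ?_, trivial⟩
      · rw [← h1]
        exact h2.1 0 le_rfl
      · rw [← h1]
        exact h3 0 le_rfl
    · rintro ⟨h1, h2, _⟩
      refine ⟨fun _ => g, rfl, ⟨fun _ _ => h1, fun i hi => absurd hi (Nat.not_lt_zero i)⟩, ?_⟩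
      intro i hi
      have : i = 0 := by omega
      rw [this]
      exact h2
  | succ k ih =>
    simp only [lst]
    constructor
    · rintro ⟨n, h1, h2, h3⟩
      refine ⟨?_, ?_, n 1, ?_, h2.1 1 (by omega), ?_, h3 1 (by omega), ?_⟩
      · rw [← h1]
        exact h2.1 0 (by omega)
      · rw [← h1]
        exact h3 0 (by omega)
      · rw [← h1]
        exact (h2.2 0 (by omega)).1
      · rw [← h1]
        exact (h2.2 0 (by omega)).2
      · refine ((ih (fun i => a (i + 1)) (n 1)).1 ⟨fun i => n (i + 1), rfl, ⟨?_, ?_⟩, ?_⟩).2.2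
        · intro i hi
          exact h2.1 (i + 1) (by omega)
        · intro i hi
          exact h2.2 (i + 1) (by omega)
        · intro i hi
          exact h3 (i + 1) (by omega)
    · rintro ⟨h1, h2, g', h3, h4, h5, h6, h7⟩
      obtain ⟨n, e1, e2, e3⟩ := (ih (fun i => a (i + 1)) g').2 ⟨h4, h6, h7⟩
      refine ⟨fun i => if i = 0 then g else n (i - 1), by simp, ⟨?_, ?_⟩, ?_⟩
      · intro i hi
        rcases Nat.eq_zero_or_pos i with rfl | h0
        · simpa using h1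
        · simp only [Nat.pos_iff_ne_zero.1 h0, if_false]
          exact e2.1 (i - 1) (by omega)
      · intro i hi
        rcases Nat.eq_zero_or_pos i with rfl | h0
        · simp only [if_true, zero_add, one_ne_zero, if_false, Nat.sub_self, e1]
          exact ⟨h3, h5⟩
        · simp only [Nat.pos_iff_ne_zero.1 h0, if_false, Nat.succ_ne_zero, Nat.add_sub_cancel]
          have := e2.2 (i - 1) (by omega)
          rwa [show i - 1 + 1 = i by omega] at this
      · intro i hi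
        rcases Nat.eq_zero_or_pos i with rfl | h0
        · simpa using h2
        · simp only [Nat.pos_iff_ne_zero.1 h0, if_false]
          have := e3 (i - 1) (by omega)
          rw [this]
          simp only
          congr 1
          omega

/-- change of variables -/
lemma patK_map (S G : ℕ → Prop) (κ κ' : ℕ → ℕ) (φ : ℕ → ℕ) (hφ : StrictMono φ)
    (hS : ∀ n, S n ↔ ∃ m, n = φ m ∧ G m) (enc : ℕ → ℕ) (β : List ℕ)
    (hκ : ∀ b ∈ β, ∀ m, κ (φ m) = b ↔ κ' m = enc b) (m : ℕ) :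
    PatK S κ β (φ m) ↔ PatK G κ' (β.map enc) m := by
  induction β generalizing m with
  | nil => exact Iff.rfl
  | cons b β ih =>
    simp only [List.map_cons]
    unfold PatK
    constructor
    · rintro ⟨g', h1, h2, h3, h4, h5⟩
      obtain ⟨m', rfl, hG⟩ := (hS g').1 h2
      refine ⟨m', hφ.lt_iff_lt.1 h1, hG, ?_, (hκ b (by simp) m').1 h4,
        (ih (fun b' hb' => hκ b' (by simp [hb'])) m').1 h5⟩
      intro n hn1 hn2 hGn
      exact h3 (φ n) (hφ hn1) (hφ hn2) ((hS _).2 ⟨n, rfl, hGn⟩)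
    · rintro ⟨m', h1, h2, h3, h4, h5⟩
      refine ⟨φ m', hφ h1, (hS _).2 ⟨m', rfl, h2⟩, ?_, (hκ b (by simp) m').2 h4,
        (ih (fun b' hb' => hκ b' (by simp [hb'])) m').2 h5⟩
      intro n hn1 hn2 hSn
      obtain ⟨u, rfl, hG⟩ := (hS n).1 hSn
      exact h3 u (hφ.lt_iff_lt.1 hn1) (hφ.lt_iff_lt.1 hn2) hG

open Classical in
/-- **Relative form**: the residue patterns of the consecutive elements of `{M m + c : G_y m}`. -/
theorem rel_pat {ι : Type} [Fintype ι] [Nonempty ι] (f : ι → ℤ[X]) (hf : Sys f) (hT : NoTr f) (l k : ℕ)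
    (hl : l.Prime) (M c : ℕ) (hM : 0 < M) (S : ℕ → ℕ → Prop) (y1 : ℕ)
    (hS : ∀ y, y1 ≤ y → ∀ n, S y n ↔ ∃ m, n = M * m + c ∧ Sf (Q f) y m)
    (κ enc : ℕ → ℕ) (cl : Finset ℕ)
    (hκ : ∀ b ∈ cl, ∀ m, κ (M * m + c) = b ↔ m % l = enc b) (henc : ∀ b ∈ cl, enc b ∈ cls (Q f) l)
    (ε : ℝ) (hε : 0 < ε) :
    ∃ K y0 : ℕ, ∀ y : ℕ, y0 ≤ y → ∀ Z Y : ℕ, y ^ K ≤ Y → (c ≤ Z ∨ ¬ S y c) →
      0 < ((Ioc Z (Z + Y)).filter (S y)).card ∧
      ∀ a : ℕ → ℕ, (∀ i ≤ k, a i ∈ cl) →
        |(((Ioc Z (Z + Y)).filter (fun g => Runs (S y) κ k a g)).card : ℝ) -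
          ((Ioc Z (Z + Y)).filter (S y)).card / ((cls (Q f) l).card : ℝ) ^ (k + 1)| ≤
          ε * ((Ioc Z (Z + Y)).filter (S y)).card := by
  obtain ⟨c0, hc0, hQ⟩ := exists_c f hf
  obtain ⟨A, hA⟩ : ∃ A, A = (cls (Q f) l).card := ⟨_, rfl⟩
  have hA1 : 1 ≤ A := by
    have h1 := card_cls (Q f) l
    have h2 := Poly.adm f hf l hl
    omega
  have hAr : (1 : ℝ) ≤ A := by exact_mod_cast hA1
  obtain ⟨e, he⟩ : ∃ e : ℝ, e = min (1 / (2 * (A : ℝ))) (ε / (4 * (A : ℝ))) := ⟨_, rfl⟩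
  have he0 : 0 < e := by rw [he]; positivity
  have he1 : A * e ≤ 1 / 2 := by
    have : e ≤ 1 / (2 * A) := by rw [he]; exact min_le_left _ _
    rw [le_div_iff₀ (by positivity)] at this
    linarith
  have he2 : A * e ≤ ε / 4 := by
    have : e ≤ ε / (4 * A) := by rw [he]; exact min_le_right _ _
    rw [le_div_iff₀ (by positivity)] at this
    linarith
  obtain ⟨K1, y01, h1⟩ := poly_pat_y f hf hT l 0 hl e he0
  obtain ⟨K2, y02, h2⟩ := poly_pat_y f hf hT l k hl e he0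
  refine ⟨K1 + K2 + 1, y01 + y02 + y1 + M + c + l + 1, ?_⟩
  intro y hy Z Y hyY hcZ
  have hy1 : 1 ≤ y := by omega
  have hly : l ≤ y := by omega
  obtain ⟨φ, hφdef⟩ : ∃ φ : ℕ → ℕ, φ = fun m => M * m + c := ⟨_, rfl⟩
  have hφ : StrictMono φ := by
    intro u v huv
    rw [hφdef]
    simp only
    have := Nat.mul_lt_mul_of_pos_left huv hM
    omega
  have hSy : ∀ n, S y n ↔ ∃ m, n = φ m ∧ Sf (Q f) y m := by
    intro n
    rw [hφdef]
    exact hS y (by omega) n
  obtain ⟨Z', hZ'⟩ : ∃ Z', Z' = (Z - c) / M := ⟨_, rfl⟩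
  obtain ⟨W', hW'⟩ : ∃ W', W' = (Z + Y - c) / M := ⟨_, rfl⟩
  have hZW : Z' ≤ W' := by
    rw [hZ', hW']
    exact Nat.div_le_div_right (by omega)
  obtain ⟨Y', hY'⟩ : ∃ Y', W' = Z' + Y' := ⟨W' - Z', by omega⟩
  have hbig : y ^ (K1 + K2) ≤ Y' := by
    have h3 : M * y ^ (K1 + K2) + c ≤ Y := by
      have h4 : 1 ≤ y ^ (K1 + K2) := Nat.one_le_pow _ _ hy1
      calc M * y ^ (K1 + K2) + c ≤ M * y ^ (K1 + K2) + c * y ^ (K1 + K2) := by
            have := Nat.le_mul_of_pos_right c h4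
            omega
        _ = (M + c) * y ^ (K1 + K2) := by ring
        _ ≤ y * y ^ (K1 + K2) := Nat.mul_le_mul_right _ (by omega)
        _ = y ^ (K1 + K2 + 1) := by ring
        _ ≤ Y := hyY
    have h5 : Z' + y ^ (K1 + K2) ≤ W' := by
      rw [hZ', hW', Nat.le_div_iff_mul_le hM]
      have h6 : (Z - c) / M * M ≤ Z - c := Nat.div_mul_le_self _ _
      calc ((Z - c) / M + y ^ (K1 + K2)) * M = (Z - c) / M * M + M * y ^ (K1 + K2) := by ring
        _ ≤ Z + Y - c := by omega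
    omega
  have hmem : ∀ m, Sf (Q f) y m → (φ m ∈ Ioc Z (Z + Y) ↔ m ∈ Ioc Z' (Z' + Y')) := by
    intro m hm
    rw [← hY', mem_Ioc, mem_Ioc]
    have hφm : φ m = M * m + c := by rw [hφdef]
    rcases Nat.eq_zero_or_pos m with rfl | hm0
    · have hc : S y c := (hSy c).2 ⟨0, by rw [hφm]; ring, hm⟩
      have hcZ' : c ≤ Z := by
        rcases hcZ with h | h
        · exact h
        · exact absurd hc h
      rw [hφm, mul_zero, zero_add]
      constructor
      · rintro ⟨h, _⟩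
        omega
      · rintro ⟨h, _⟩
        omega
    · rw [hφm, hZ', hW', Nat.div_lt_iff_lt_mul hM, Nat.le_div_iff_mul_le hM]
      have h7 : 0 < M * m := Nat.mul_pos hM hm0
      rw [mul_comm m M]
      omega
  have hcard : ∀ (P P' : ℕ → Prop) (i1 : DecidablePred P) (i2 : DecidablePred P'), (∀ m, P (φ m) ↔ P' m) → (∀ n, P n → S y n) → (∀ m, P' m → Sf (Q f) y m) →
      ((Ioc Z (Z + Y)).filter P).card = ((Ioc Z' (Z' + Y')).filter P').card := by
    intro P P' i1 i2 h3 h4 h5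
    symm
    apply Finset.card_bij (fun m _ => φ m)
    · intro m hm
      rw [mem_filter] at hm ⊢
      exact ⟨(hmem m (h5 m hm.2)).2 hm.1, (h3 m).2 hm.2⟩
    · intro u _ v _ huv
      exact hφ.injective huv
    · intro n hn
      rw [mem_filter] at hn
      obtain ⟨m, rfl, hG⟩ := (hSy n).1 (h4 n hn.2)
      exact ⟨m, mem_filter.2 ⟨(hmem m hG).1 hn.1, (h3 m).1 hn.2⟩, rfl⟩
  -- the total number
  obtain ⟨tot, htot⟩ : ∃ tot, tot = ((Ioc Z (Z + Y)).filter (S y)).card := ⟨_, rfl⟩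
  obtain ⟨B, hB⟩ : ∃ B : ℝ, B = Y' * Vq (Q f) y := ⟨_, rfl⟩
  have hV0 : 0 < Vq (Q f) y := Vq_pos (Q f) (fun p hp => Poly.adm f hf p hp) y
  have hY'1 : 1 ≤ Y' := (Nat.one_le_pow _ _ hy1).trans hbig
  have hB0 : 0 < B := by
    rw [hB]
    have : (0 : ℝ) < Y' := by exact_mod_cast hY'1
    positivity
  have htot1 : tot = ((Ioc Z' (Z' + Y')).filter (Sf (Q f) y)).card := by
    rw [htot]
    apply hcard (S y) (Sf (Q f) y) _ _
    · intro m
      constructor
      · intro h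
        obtain ⟨m', h6, h7⟩ := (hSy _).1 h
        rwa [hφ.injective h6]
      · intro h
        exact (hSy _).2 ⟨m, rfl, h⟩
    · exact fun _ h => h
    · exact fun _ h => h
  have htot2 : (tot : ℝ) = ∑ a ∈ cls (Q f) l, ((Oa (Q f) l a y Z' Y').card : ℝ) := by
    rw [htot1, ← Nat.cast_sum]
    congr 1
    rw [Finset.card_eq_sum_card_fiberwise (f := fun g => g % l) (t := cls (Q f) l)]
    · apply Finset.sum_congr rfl
      intro a _
      unfold Oa
      rw [Finset.filter_filter]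
    · intro g hg
      rw [Finset.mem_coe, mem_filter] at hg
      exact mod_mem_cls (Q f) c0 hQ l y g hl hly hg.2
  have hone : ∀ a ∈ cls (Q f) l, |((Oa (Q f) l a y Z' Y').card : ℝ) - B / A| ≤ e * B := by
    intro a ha
    have h3 := h1 y (by omega) Z' Y' ((Nat.pow_le_pow_right hy1 (by omega)).trans hbig) a ha [] (by simp [Ls])
    rw [← hB, ← hA, zero_add, pow_one] at h3
    have h4 : (Oa (Q f) l a y Z' Y').filter (fun g => Pat (Sf (Q f) y) l [] g) = Oa (Q f) l a y Z' Y' := by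
      apply Finset.filter_true_of_mem
      intro g _
      trivial
    rwa [h4] at h3
  have htot3 : |(tot : ℝ) - B| ≤ A * e * B := by
    have h3 : B = ∑ a ∈ cls (Q f) l, B / A := by
      rw [Finset.sum_const, ← hA, nsmul_eq_mul]
      field_simp
    rw [htot2]
    conv_lhs => rw [h3]
    rw [← Finset.sum_sub_distrib]
    refine (Finset.abs_sum_le_sum_abs _ _).trans ?_
    refine (Finset.sum_le_card_nsmul _ _ _ hone).trans (le_of_eq ?_)
    rw [← hA, nsmul_eq_mul]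
    ring
  have hB2 : B ≤ 2 * tot := by
    have := (abs_le.1 htot3).1
    nlinarith
  rw [← htot]
  refine ⟨?_, ?_⟩
  · have : (0 : ℝ) < tot := by linarith
    exact_mod_cast this
  intro a ha
  have hb0 := henc (a 0) (ha 0 (Nat.zero_le _))
  have hlmem : (lst a k).map enc ∈ Ls (cls (Q f) l) k := by
    rw [mem_Ls, List.length_map, lst_length]
    refine ⟨rfl, ?_⟩
    intro b hb
    rw [List.mem_map] at hb
    obtain ⟨b', hb', rfl⟩ := hb
    obtain ⟨i, _, h5, rfl⟩ := mem_lst a k b' hb'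
    exact henc _ (ha i h5)
  have h3 := h2 y (by omega) Z' Y' ((Nat.pow_le_pow_right hy1 (by omega)).trans hbig) (enc (a 0)) hb0
    ((lst a k).map enc) hlmem
  rw [← hB, ← hA] at h3
  have hcnt : ((Ioc Z (Z + Y)).filter (fun g => Runs (S y) κ k a g)).card =
      ((Oa (Q f) l (enc (a 0)) y Z' Y').filter (fun g => Pat (Sf (Q f) y) l ((lst a k).map enc) g)).card := by
    unfold Oa
    rw [Finset.filter_filter]
    apply hcard
    · intro m
      rw [runs_iff, patK_map (S y) (Sf (Q f) y) κ (fun n => n % l) φ hφ hSy enc (lst a k) (by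
        intro b hb m
        obtain ⟨i, _, h5, rfl⟩ := mem_lst a k b hb
        rw [hφdef]
        exact hκ _ (ha i h5) m) m, patK_mod]
      have h6 : S y (φ m) ↔ Sf (Q f) y m := by
        constructor
        · intro h
          obtain ⟨m', h6, h7⟩ := (hSy _).1 h
          rwa [hφ.injective h6]
        · intro h
          exact (hSy _).2 ⟨m, rfl, h⟩
      have h7 : κ (φ m) = a 0 ↔ m % l = enc (a 0) := by
        rw [hφdef]
        exact hκ _ (ha 0 (Nat.zero_le _)) m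
      rw [h6, h7]
      tauto
    · intro n hn
      exact ((runs_iff _ _ _ _ _).1 hn).1
    · intro m hm
      exact hm.1.1
  rw [hcnt]
  have hApow : (1 : ℝ) ≤ (A : ℝ) ^ (k + 1) := one_le_pow₀ hAr
  have h8 : |(tot : ℝ) / (A : ℝ) ^ (k + 1) - B / (A : ℝ) ^ (k + 1)| ≤ A * e * B := by
    rw [← sub_div, abs_div, abs_of_pos (by linarith : (0 : ℝ) < (A : ℝ) ^ (k + 1))]
    exact (div_le_self (abs_nonneg _) hApow).trans htot3
  have h9 : e * B ≤ A * e * B := by
    have : 0 ≤ e * B := by positivity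
    nlinarith
  have h10 : A * e * B ≤ ε / 4 * (2 * tot) := by
    apply mul_le_mul he2 hB2 hB0.le (by positivity)
  rw [← hA]
  rw [abs_le] at h3 h8 ⊢
  constructor <;> linarith [h3.1, h3.2, h8.1, h8.2]

end Pool.Agent.V11146.MK
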